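import Mathlib

open Polynomial Module

namespace H474FL

variable {K : Type*} [Field K]

/-- A vector space embedded in the image of a finite-dimensional one has smaller dimension. -/
lemma finrank_le_of_cover {A B C : Type*} [AddCommGroup A] [Module K A] [AddCommGroup B]
    [Module K B] [AddCommGroup C] [Module K C] [FiniteDimensional K B] (π : A →ₗ[K] C)
    (hπ : Function.Injective π) (j : B →ₗ[K] C) (h : ∀ a, ∃ b, j b = π a) :
    finrank K A ≤ finrank K B := by
  have h1 : LinearMap.range π ≤ LinearMap.range j := by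
    rintro _ ⟨a, rfl⟩
    exact h a
  calc finrank K A = finrank K (LinearMap.range π) := (LinearMap.finrank_range_of_inj hπ).symm
    _ ≤ finrank K (LinearMap.range j) := Submodule.finrank_mono h1
    _ ≤ finrank K B := LinearMap.finrank_range_le j

/-- Semicontinuity of the kernel dimension in a family of linear maps with coefficients in a
ring of functions on the parameter space. -/
lemma semicont {Θ : Type*} (PF : Subring (Θ → K)) {V W : Type*} [AddCommGroup V] [Module K V]
    [FiniteDimensional K V] [AddCommGroup W] [Module K W] (f : Θ → V →ₗ[K] W)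
    (hf : ∀ v (g : W →ₗ[K] K), (fun θ => g (f θ v)) ∈ PF) (θ₀ : Θ) :
    ∃ p ∈ PF, p θ₀ ≠ 0 ∧ ∀ θ, p θ ≠ 0 →
      finrank K (LinearMap.ker (f θ)) ≤ finrank K (LinearMap.ker (f θ₀)) := by
  classical
  obtain ⟨V', hV'⟩ := Submodule.exists_isCompl (LinearMap.ker (f θ₀))
  have hinj : Function.Injective ((f θ₀).comp V'.subtype) := by
    rw [← LinearMap.ker_eq_bot, LinearMap.ker_eq_bot']
    intro m hm
    have h1 : (m : V) ∈ LinearMap.ker (f θ₀) := by
      simpa using hm
    have h2 : (m : V) ∈ (LinearMap.ker (f θ₀)) ⊓ V' := ⟨h1, m.2⟩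
    rw [hV'.inf_eq_bot] at h2
    exact Subtype.ext (by simpa using h2)
  obtain ⟨g0, hg0⟩ := LinearMap.exists_leftInverse_of_injective ((f θ₀).comp V'.subtype)
    (LinearMap.ker_eq_bot.2 hinj)
  let b := finBasis K V'
  let F : Θ → (V' →ₗ[K] V') := fun θ => g0.comp ((f θ).comp V'.subtype)
  let M : Θ → Matrix (Fin (finrank K V')) (Fin (finrank K V')) K :=
    fun θ => LinearMap.toMatrix b b (F θ)
  have hM : ∀ i j, (fun θ => M θ i j) ∈ PF := by
    intro i j
    have := hf (b j : V) ((b.coord i).comp g0)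
    convert this using 2 with θ
    simp [M, F, LinearMap.toMatrix_apply]
  let M' : Matrix (Fin (finrank K V')) (Fin (finrank K V')) PF := fun i j => ⟨_, hM i j⟩
  refine ⟨(M'.det : PF), (M'.det).2, ?_, ?_⟩
  all_goals
    have hdet : ∀ θ, ((M'.det : PF) : Θ → K) θ = (M θ).det := by
      intro θ
      have h1 := RingHom.map_det ((Pi.evalRingHom (fun _ : Θ => K) θ).comp PF.subtype) M'
      have h2 : ((Pi.evalRingHom (fun _ : Θ => K) θ).comp PF.subtype).mapMatrix M' = M θ := by
        ext i j
        rfl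
      rw [h2] at h1
      simpa using h1
  · rw [hdet]
    have : F θ₀ = LinearMap.id := hg0
    simp [M, this]
  · intro θ hθ
    rw [hdet] at hθ
    have hinjθ : Function.Injective (F θ) := by
      have h3 : LinearMap.det (F θ) ≠ 0 := by
        rw [← LinearMap.det_toMatrix b]
        exact hθ
      exact (LinearMap.equivOfDetNeZero (F θ) h3).injective
    have hdisj : Disjoint (LinearMap.ker (f θ)) V' := by
      rw [Submodule.disjoint_def]
      intro x hx hxV
      have : F θ ⟨x, hxV⟩ = F θ 0 := by
        simp only [F, LinearMap.comp_apply, Submodule.subtype_apply, map_zero]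
        rw [LinearMap.mem_ker.1 hx, map_zero]
      have := hinjθ this
      simpa using congrArg Subtype.val this
    have h4 := Submodule.finrank_add_finrank_le_of_disjoint hdisj
    have h5 := Submodule.finrank_add_eq_of_isCompl hV'
    omega

/-- polynomial functions of one variable -/
noncomputable def polyFun (K : Type*) [Field K] : Subring (K → K) :=
  (RingHom.pi (fun ε : K => Polynomial.evalRingHom ε)).range

lemma mem_polyFun {φ : K → K} : φ ∈ polyFun K ↔ ∃ p : K[X], ∀ ε, p.eval ε = φ ε := by
  unfold polyFun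
  rw [RingHom.mem_range]
  constructor
  · rintro ⟨p, hp⟩
    exact ⟨p, fun ε => by rw [← hp]; rfl⟩
  · rintro ⟨p, hp⟩
    exact ⟨p, by ext ε; exact hp ε⟩

lemma finite_zeros_of_polyFun {φ : K → K} (h : φ ∈ polyFun K) {ε₀ : K} (h0 : φ ε₀ ≠ 0) :
    {ε | φ ε = 0}.Finite := by
  classical
  obtain ⟨p, hp⟩ := mem_polyFun.1 h
  have hp0 : p ≠ 0 := by
    rintro rfl
    exact h0 (by rw [← hp]; simp)
  refine (p.roots.toFinset.finite_toSet).subset ?_
  intro ε hε
  have hε : φ ε = 0 := hε
  simp [hp0, Polynomial.IsRoot, hp ε, hε]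

lemma polyFun_pow (k : ℕ) (c : K) : (fun ε : K => ε ^ k * c) ∈ polyFun K :=
  mem_polyFun.2 ⟨X ^ k * C c, fun ε => by simp only [eval_mul, eval_pow, eval_X, eval_C]⟩

lemma polyFun_const (c : K) : (fun _ : K => c) ∈ polyFun K :=
  mem_polyFun.2 ⟨C c, fun ε => by simp⟩

lemma polyFun_id : (fun ε : K => ε) ∈ polyFun K :=
  mem_polyFun.2 ⟨X, fun ε => by simp⟩

/-- one-parameter semicontinuity: all but finitely many parameters are good -/
lemma semicont_one {V W : Type*} [AddCommGroup V] [Module K V]
    [FiniteDimensional K V] [AddCommGroup W] [Module K W] (f : K → V →ₗ[K] W)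
    (hf : ∀ v (g : W →ₗ[K] K), (fun θ => g (f θ v)) ∈ polyFun K) :
    {ε | ¬ finrank K (LinearMap.ker (f ε)) ≤ finrank K (LinearMap.ker (f 0))}.Finite := by
  obtain ⟨p, hp, hp0, h⟩ := semicont (polyFun K) f hf 0
  refine (finite_zeros_of_polyFun hp hp0).subset ?_
  intro ε hε
  by_contra hne
  exact hε (h ε hne)

end H474FL
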