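import Mathlib
import Pool.Agent.H474R3.FL.Lin

open Polynomial Module Finset

namespace H474FL

variable {K : Type*} [Field K]

lemma finrank_degreeLT (L : ℕ) : finrank K (degreeLT K L) = L := by
  rw [(degreeLTEquiv K L).finrank_eq, finrank_fin_fun]

instance (L : ℕ) : FiniteDimensional K (degreeLT K L) :=
  Module.Finite.equiv (degreeLTEquiv K L).symm

/-- sequences supported in `[0,n)` of polynomials of degree `< L` -/
def VV (K : Type*) [Field K] (n L : ℕ) : Submodule K (ℕ → K[X]) where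
  carrier := {ψ | ∀ p, ψ p ∈ degreeLT K L ∧ (n ≤ p → ψ p = 0)}
  add_mem' := by
    intro a b ha hb p
    refine ⟨Submodule.add_mem _ (ha p).1 (hb p).1, fun h => ?_⟩
    simp [(ha p).2 h, (hb p).2 h]
  zero_mem' := fun p => ⟨Submodule.zero_mem _, fun _ => rfl⟩
  smul_mem' := by
    intro c a ha p
    refine ⟨Submodule.smul_mem _ c (ha p).1, fun h => ?_⟩
    simp [(ha p).2 h]

lemma mem_VV {n L : ℕ} {ψ : ℕ → K[X]} :
    ψ ∈ VV K n L ↔ ∀ p, ψ p ∈ degreeLT K L ∧ (n ≤ p → ψ p = 0) := Iff.rfl

/-- `VV` is a finite product -/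
noncomputable def VVequiv (n L : ℕ) : VV K n L ≃ₗ[K] (Fin n → degreeLT K L) where
  toFun ψ i := ⟨ψ.1 i, (ψ.2 i).1⟩
  map_add' a b := by ext; rfl
  map_smul' c a := by ext; rfl
  invFun w := ⟨fun p => if h : p < n then (w ⟨p, h⟩ : K[X]) else 0, by
    intro p
    by_cases h : p < n
    · simp only [h, dif_pos]
      exact ⟨(w ⟨p, h⟩).2, fun h' => absurd h (by omega)⟩
    · simp only [h, dif_neg, not_false_eq_true]
      exact ⟨Submodule.zero_mem _, fun _ => trivial⟩⟩
  left_inv ψ := by
    apply Subtype.ext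
    funext p
    by_cases h : p < n
    · simp [h]
    · simp [h, (ψ.2 p).2 (by omega)]
  right_inv w := by
    ext i
    simp

instance (n L : ℕ) : FiniteDimensional K (VV K n L) :=
  Module.Finite.equiv (VVequiv n L).symm

lemma finrank_VV (n L : ℕ) : finrank K (VV K n L) = n * L := by
  rw [(VVequiv n L).finrank_eq, Module.finrank_pi_fintype]
  simp [finrank_degreeLT]

/-- solutions of the recurrence `∑ a_x ψ_{l+x} = 0`, `l < B` -/
def NN (a : ℕ → K[X]) (d L B : ℕ) : Submodule K (ℕ → K[X]) where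
  carrier := {ψ | ψ ∈ VV K (B + d) L ∧ ∀ l < B, ∑ x ∈ range (d + 1), a x * ψ (l + x) = 0}
  add_mem' := by
    rintro f g ⟨hf, hf'⟩ ⟨hg, hg'⟩
    refine ⟨Submodule.add_mem _ hf hg, fun l hl => ?_⟩
    simp only [Pi.add_apply, mul_add, Finset.sum_add_distrib, hf' l hl, hg' l hl, add_zero]
  zero_mem' := ⟨Submodule.zero_mem _, fun l _ => by simp⟩
  smul_mem' := by
    rintro c f ⟨hf, hf'⟩
    refine ⟨Submodule.smul_mem _ c hf, fun l hl => ?_⟩
    simp only [Pi.smul_apply, mul_smul_comm, ← Finset.smul_sum, hf' l hl, smul_zero]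

lemma mem_NN {a : ℕ → K[X]} {d L B : ℕ} {ψ : ℕ → K[X]} : ψ ∈ NN a d L B ↔
    ψ ∈ VV K (B + d) L ∧ ∀ l < B, ∑ x ∈ range (d + 1), a x * ψ (l + x) = 0 := Iff.rfl

instance (a : ℕ → K[X]) (d L B : ℕ) : FiniteDimensional K (NN a d L B) :=
  Submodule.finiteDimensional_of_le (show NN a d L B ≤ VV K (B + d) L from fun _ h => h.1)

/-! ### Choosing coordinates -/

lemma exists_coords {r : ℕ} {V : Type*} [AddCommGroup V] [Module K V] [FiniteDimensional K V]
    (F : V →ₗ[K] (Fin r → K)) :
    ∃ I : Finset (Fin r), I.card ≤ finrank K V ∧ ∀ v, (∀ i ∈ I, F v i = 0) → F v = 0 := by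
  classical
  let φ : Fin r → (V →ₗ[K] K) := fun i => (LinearMap.proj i).comp F
  obtain ⟨κ, a, ha, hspan, hli⟩ := exists_linearIndependent' K φ
  have : Fintype κ := Fintype.ofInjective a ha
  refine ⟨Finset.univ.image a, ?_, ?_⟩
  · calc (Finset.univ.image a).card ≤ (Finset.univ : Finset κ).card := Finset.card_image_le
      _ = Fintype.card κ := rfl
      _ ≤ finrank K (V →ₗ[K] K) := hli.fintype_card_le_finrank
      _ = finrank K V := by
        have := Subspace.dual_finrank_eq (K := K) (V := V)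
        exact this
  · intro v hv
    have hmem : ∀ g ∈ Submodule.span K (Set.range (φ ∘ a)), g v = 0 := by
      intro g hg
      induction hg using Submodule.span_induction with
      | mem x hx =>
        obtain ⟨k, rfl⟩ := hx
        exact hv (a k) (Finset.mem_image_of_mem a (Finset.mem_univ k))
      | zero => rfl
      | add x y _ _ hx hy => simp [hx, hy]
      | smul c x _ hx => simp [hx]
    funext i
    have : φ i ∈ Submodule.span K (Set.range (φ ∘ a)) := by
      rw [hspan]
      exact Submodule.subset_span ⟨i, rfl⟩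
    exact hmem _ this

/-- polynomials of degree `< e` vanishing at the points `α j`, `j ∈ J` -/
def ZZ {r : ℕ} (α : Fin r → K) (e : ℕ) (J : Finset (Fin r)) : Submodule K K[X] where
  carrier := {E | E ∈ degreeLT K e ∧ ∀ j ∈ J, E.eval (α j) = 0}
  add_mem' := by
    rintro f g ⟨hf, hf'⟩ ⟨hg, hg'⟩
    refine ⟨Submodule.add_mem _ hf hg, fun l hl => ?_⟩
    simp [hf' l hl, hg' l hl]
  zero_mem' := ⟨Submodule.zero_mem _, fun l _ => by simp⟩
  smul_mem' := by
    rintro c f ⟨hf, hf'⟩
    refine ⟨Submodule.smul_mem _ c hf, fun l hl => ?_⟩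
    simp [hf' l hl]

instance {r : ℕ} (α : Fin r → K) (e : ℕ) (J : Finset (Fin r)) :
    FiniteDimensional K (ZZ α e J) :=
  Submodule.finiteDimensional_of_le (show ZZ α e J ≤ degreeLT K e from fun _ h => h.1)

lemma degree_lt_of_mul {P Q E : K[X]} {k e : ℕ} (hP : P.natDegree = k) (hP0 : P ≠ 0)
    (hE : E = P * Q) (hdeg : E ∈ degreeLT K e) : Q ∈ degreeLT K (e - k) := by
  rw [mem_degreeLT] at *
  by_cases hQ : Q = 0
  · rw [hQ, degree_zero]
    exact WithBot.bot_lt_coe _
  · have hE0 : E ≠ 0 := by rw [hE]; exact mul_ne_zero hP0 hQ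
    rw [← natDegree_lt_iff_degree_lt hE0, hE, natDegree_mul hP0 hQ, hP] at hdeg
    rw [← natDegree_lt_iff_degree_lt hQ]
    omega

lemma finrank_ZZ {r : ℕ} {α : Fin r → K} (hα : Function.Injective α) (e : ℕ)
    (J : Finset (Fin r)) : finrank K (ZZ α e J) ≤ e - J.card := by
  classical
  set P : K[X] := ∏ j ∈ J, (X - C (α j)) with hP
  have hPm : P.Monic := monic_prod_of_monic _ _ (fun j _ => monic_X_sub_C _)
  have hPd : P.natDegree = J.card := by
    rw [hP, natDegree_prod_of_monic _ _ (fun j _ => monic_X_sub_C _)]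
    simp
  rw [← finrank_degreeLT (K := K) (e - J.card)]
  refine finrank_le_of_cover (ZZ α e J).subtype (Submodule.subtype_injective _)
    ((LinearMap.mulLeft K P).comp (degreeLT K (e - J.card)).subtype) ?_
  rintro ⟨E, hE1, hE2⟩
  have hdvd : P ∣ E := by
    rw [hP]
    refine Finset.prod_dvd_of_coprime ?_ ?_
    · intro i _ j _ hij
      exact pairwise_coprime_X_sub_C hα hij
    · intro j hj
      exact dvd_iff_isRoot.2 (hE2 j hj)
  obtain ⟨Q, hQ⟩ := hdvd
  refine ⟨⟨Q, degree_lt_of_mul hPd hPm.ne_zero hQ hE1⟩, ?_⟩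
  simp [hQ]

/-- coefficient vectors as polynomials of degree `< e` -/
noncomputable def polyOf (K : Type*) [Field K] (e : ℕ) : (Fin e → K) →ₗ[K] K[X] :=
  (degreeLT K e).subtype.comp (degreeLTEquiv K e).symm.toLinearMap

lemma polyOf_mem (e : ℕ) (w : Fin e → K) : polyOf K e w ∈ degreeLT K e :=
  ((degreeLTEquiv K e).symm w).2

lemma polyOf_inj (e : ℕ) (w : Fin e → K) (h : polyOf K e w = 0) : w = 0 := by
  have h1 : (degreeLTEquiv K e).symm w = 0 := Subtype.ext h
  simpa using h1

lemma polyOf_surj {e : ℕ} {E : K[X]} (h : E ∈ degreeLT K e) : ∃ w, polyOf K e w = E :=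
  ⟨degreeLTEquiv K e ⟨E, h⟩, by simp [polyOf]⟩

/-- the gluing map -/
noncomputable def Xi {r : ℕ} {V : Type*} [AddCommGroup V] [Module K V]
    (F : V →ₗ[K] (Fin r → K)) (α ρ : Fin r → K) (e : ℕ) :
    (V × (Fin e → K)) →ₗ[K] (Fin r → K) :=
  LinearMap.pi (fun i => (LinearMap.proj i).comp (F.comp (LinearMap.fst K V (Fin e → K))) +
    (ρ i) • ((Polynomial.leval (α i)).comp
      ((polyOf K e).comp (LinearMap.snd K V (Fin e → K)))))

lemma Xi_apply {r : ℕ} {V : Type*} [AddCommGroup V] [Module K V]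
    (F : V →ₗ[K] (Fin r → K)) (α ρ : Fin r → K) (e : ℕ) (v : V) (E : Fin e → K) (i : Fin r) :
    Xi F α ρ e (v, E) i = F v i + ρ i * (polyOf K e E).eval (α i) := by
  simp [Xi]

lemma Xi_zero {r : ℕ} {V : Type*} [AddCommGroup V] [Module K V]
    {F : V →ₗ[K] (Fin r → K)} (hF : ∀ v, F v = 0 → v = 0) (α ρ : Fin r → K) (w : ℕ) :
    finrank K (LinearMap.ker (Xi F α ρ 0)) ≤ w := by
  have : LinearMap.ker (Xi F α ρ 0) = ⊥ := by
    rw [LinearMap.ker_eq_bot']
    rintro ⟨v, E⟩ h
    have hE : E = 0 := Subsingleton.elim _ _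
    have hv : v = 0 := by
      apply hF
      funext i
      have := congrFun h i
      rw [Xi_apply, hE, map_zero, eval_zero, mul_zero, add_zero] at this
      exact this
    rw [hE, hv]
    rfl
  rw [this, finrank_bot]
  exact Nat.zero_le _

lemma Xi_big {r : ℕ} {V : Type*} [AddCommGroup V] [Module K V] [FiniteDimensional K V]
    {F : V →ₗ[K] (Fin r → K)} {α ρ : Fin r → K} (hα : Function.Injective α)
    (hρ : ∀ i, ρ i ≠ 0) (e : ℕ) :
    finrank K (LinearMap.ker (Xi F α ρ e)) ≤ finrank K V + (e - r) := by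
  classical
  let S : Submodule K (V × (Fin e → K)) := LinearMap.ker (Xi F α ρ e)
  let g : S →ₗ[K] V := (LinearMap.fst K V (Fin e → K)).comp S.subtype
  have h1 : finrank K (LinearMap.range g) + finrank K (LinearMap.ker g) = finrank K S :=
    LinearMap.finrank_range_add_finrank_ker g
  have h2 : finrank K (LinearMap.range g) ≤ finrank K V := Submodule.finrank_le _
  have h3 : finrank K (LinearMap.ker g) ≤ e - r := by
    calc finrank K (LinearMap.ker g) ≤ finrank K (ZZ α e Finset.univ) := by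
          refine finrank_le_of_cover (A := LinearMap.ker g)
            (((polyOf K e).comp (LinearMap.snd K V (Fin e → K))).comp
              (S.subtype.comp (LinearMap.ker g).subtype)) ?_
            (ZZ α e Finset.univ).subtype ?_
          · refine (injective_iff_map_eq_zero _).2 ?_
            rintro ⟨⟨⟨v, E⟩, h⟩, h'⟩ hE
            have hv : v = 0 := h'
            have hE'' : E = 0 := polyOf_inj e E hE
            subst hv hE''
            rfl
          · rintro ⟨⟨⟨v, E⟩, h⟩, h'⟩
            have hv : v = 0 := h'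
            refine ⟨⟨polyOf K e E, polyOf_mem e E, ?_⟩, rfl⟩
            intro j _
            have := congrFun (LinearMap.mem_ker.1 h) j
            rw [Xi_apply, hv] at this
            simpa [hρ j] using this
      _ ≤ e - r := by simpa using finrank_ZZ hα e Finset.univ
  change finrank K S ≤ _
  omega

lemma Xi_deg {r : ℕ} {V : Type*} [AddCommGroup V] [Module K V] [FiniteDimensional K V]
    {F : V →ₗ[K] (Fin r → K)} {α ρ : Fin r → K} (hα : Function.Injective α) (e : ℕ)
    (hF : ∀ v, F v = 0 → v = 0)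
    (I J : Finset (Fin r)) (hI : ∀ v, (∀ i ∈ I, F v i = 0) → F v = 0)
    (hIJ : ∀ i ∈ I, i ∉ J) (h0 : ∀ i, i ∉ J → ρ i = 0) (h1 : ∀ i ∈ J, ρ i ≠ 0) :
    finrank K (LinearMap.ker (Xi F α ρ e)) ≤ e - J.card := by
  have hv : ∀ v E, Xi F α ρ e (v, E) = 0 → v = 0 := by
    intro v E h
    apply hF
    apply hI
    intro i hi
    have := congrFun h i
    rw [Xi_apply, h0 i (hIJ i hi)] at this
    simpa using this
  calc finrank K (LinearMap.ker (Xi F α ρ e)) ≤ finrank K (ZZ α e J) := by
        refine finrank_le_of_cover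
            (((polyOf K e).comp (LinearMap.snd K V (Fin e → K))).comp
              ((LinearMap.ker (Xi F α ρ e)).subtype)) ?_
            (ZZ α e J).subtype ?_
        · refine (injective_iff_map_eq_zero _).2 ?_
          rintro ⟨⟨v, E⟩, h⟩ hE
          have hv0 : v = 0 := hv v E h
          have hE'' : E = 0 := polyOf_inj e E hE
          subst hv0 hE''
          rfl
        · rintro ⟨⟨v, E⟩, h⟩
          have hv0 : v = 0 := hv v E h
          refine ⟨⟨polyOf K e E, polyOf_mem e E, ?_⟩, rfl⟩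
          intro j hj
          have := congrFun (LinearMap.mem_ker.1 h) j
          rw [Xi_apply, hv0] at this
          simpa [h1 j hj] using this
    _ ≤ e - J.card := finrank_ZZ hα e J

end H474FL
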