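import Mathlib
import Pool.Agent.H474R3.FL.Core1

open Polynomial Module Finset

namespace H474FL

variable {K : Type*} [Field K]

lemma exists_beta [Infinite K] {r : ℕ} {V : Type*} [AddCommGroup V] [Module K V]
    [FiniteDimensional K V] {F : V →ₗ[K] (Fin r → K)} (hF : ∀ v, F v = 0 → v = 0)
    {α : Fin r → K} (hα : Function.Injective α) (n : ℕ) (hn : 1 ≤ n) (e : ℕ) :
    ∃ β : Fin r → K, Function.Injective β ∧ (∀ i j, β j ≠ α i) ∧
      finrank K (LinearMap.ker (Xi F α (fun i => (∏ j, (α i - β j)) ^ n) e))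
        ≤ finrank K V + e - r := by
  classical
  obtain ⟨I, hIc, hI⟩ := exists_coords F
  have hcard : min e (r - finrank K V) ≤ (Iᶜ).card := by
    rw [Finset.card_compl, Fintype.card_fin]
    omega
  obtain ⟨J, hJI, hJc⟩ := Finset.exists_subset_card_eq hcard
  have hinf : (Set.range α)ᶜ.Infinite := (Set.finite_range α).infinite_compl
  let γ : ℕ ↪ ((Set.range α)ᶜ : Set K) := hinf.natEmbedding
  let β0 : Fin r → K := fun j => if j ∈ J then ((γ j : ((Set.range α)ᶜ : Set K)) : K) else α j
  have hγ : ∀ (j : ℕ) (i : Fin r), ((γ j : ((Set.range α)ᶜ : Set K)) : K) ≠ α i := by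
    intro j i h
    exact (γ j).2 ⟨i, h.symm⟩
  have hβ0 : Function.Injective β0 := by
    intro i j h
    simp only [β0] at h
    split_ifs at h with h1 h2 h2
    · exact Fin.ext (γ.injective (Subtype.ext h))
    · exact absurd h (hγ _ _)
    · exact absurd h.symm (hγ _ _)
    · exact hα h
  let f : K → (V × (Fin e → K)) →ₗ[K] (Fin r → K) :=
    fun η => Xi F α (fun i => (∏ j, (α i - (β0 j + η))) ^ n) e
  have hS1 := semicont_one f (by
    rintro ⟨v, E⟩ g
    have : (fun θ => g (f θ (v, E))) = fun θ => ∑ i, (F v i +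
        (∏ j, (α i - (β0 j + θ))) ^ n * (polyOf K e E).eval (α i)) *
          g (fun j => if i = j then 1 else 0) := by
      funext θ
      rw [LinearMap.pi_apply_eq_sum_univ g]
      simp only [f, Xi_apply, smul_eq_mul]
    rw [this]
    have hsum := Subring.sum_mem (polyFun K) (t := (Finset.univ : Finset (Fin r)))
      (f := fun i => fun θ : K => (F v i +
        (∏ j, (α i - (β0 j + θ))) ^ n * (polyOf K e E).eval (α i)) *
          g (fun j => if i = j then 1 else 0)) (by
        intro i _
        refine Subring.mul_mem _ (Subring.add_mem _ (polyFun_const _)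
          (Subring.mul_mem _ (Subring.pow_mem _ ?_ n) (polyFun_const _))) (polyFun_const _)
        have hprod := Subring.prod_mem (polyFun K) (t := (Finset.univ : Finset (Fin r)))
          (f := fun j => fun θ : K => (α i - (β0 j + θ))) (by
            intro j _
            exact Subring.sub_mem _ (polyFun_const _) (Subring.add_mem _ (polyFun_const _) polyFun_id))
        convert hprod using 1
        funext θ
        simp)
    convert hsum using 1
    funext θ
    simp)
  have hS2 : (Set.range (fun p : Fin r × Fin r => α p.1 - β0 p.2)).Finite := Set.finite_range _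
  obtain ⟨η, hη⟩ := ((hS1.union hS2).infinite_compl).nonempty
  simp only [Set.mem_compl_iff, Set.mem_union, not_or] at hη
  obtain ⟨hη1, hη2⟩ := hη
  have hη1' : finrank K (LinearMap.ker (f η)) ≤ finrank K (LinearMap.ker (f 0)) := by
    by_contra h
    exact hη1 h
  refine ⟨fun j => β0 j + η, fun i j h => hβ0 (by simpa using h), ?_, ?_⟩
  · intro i j h
    apply hη2
    refine ⟨(i, j), ?_⟩
    simp only
    rw [← h]
    ring
  · refine hη1'.trans ?_
    have hdeg := Xi_deg (F := F) (α := α) (ρ := fun i => (∏ j, (α i - (β0 j + 0))) ^ n) hα e hF I J hI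
      (by
        intro i hi hiJ
        have := hJI hiJ
        simp only [Finset.mem_compl] at this
        exact this hi)
      (by
        intro i hi
        have : ∏ j, (α i - (β0 j + 0)) = 0 :=
          Finset.prod_eq_zero (Finset.mem_univ i) (by simp [β0, hi])
        simp only [this]
        exact zero_pow (by omega))
      (by
        intro i hi
        refine pow_ne_zero _ (Finset.prod_ne_zero_iff.2 ?_)
        intro j _ h
        have h' : β0 j = α i := by
          have := sub_eq_zero.1 h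
          rw [this]; ring
        simp only [β0] at h'
        split_ifs at h' with hj
        · exact hγ _ _ h'
        · exact hj (hα h' ▸ hi))
    calc finrank K (LinearMap.ker (f 0)) ≤ e - J.card := hdeg
      _ ≤ finrank K V + e - r := by
        rw [hJc]
        omega

/-- the scaled recurrence operator -/
noncomputable def TT (a : ℕ → K[X]) (b : K[X]) (d L B ls : ℕ) (ε : K) :
    VV K (B + d + 1) L →ₗ[K] (Fin B → K[X]) :=
  LinearMap.pi (fun l =>
    (∑ x ∈ range (d + 1), ε ^ (((l : ℕ) - ls) - (((l : ℕ) + x) - (ls + d))) •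
      ((LinearMap.mulLeft K (a x)).comp ((LinearMap.proj ((l : ℕ) + x)).comp
        (VV K (B + d + 1) L).subtype))) +
    ε ^ (1 + ((l : ℕ) - ls) - (((l : ℕ) + d + 1) - (ls + d))) •
      ((LinearMap.mulLeft K b).comp ((LinearMap.proj ((l : ℕ) + d + 1)).comp
        (VV K (B + d + 1) L).subtype)))

lemma TT_apply (a : ℕ → K[X]) (b : K[X]) (d L B ls : ℕ) (ε : K) (ψ : VV K (B + d + 1) L)
    (l : Fin B) : TT a b d L B ls ε ψ l =
      (∑ x ∈ range (d + 1), ε ^ (((l : ℕ) - ls) - (((l : ℕ) + x) - (ls + d))) •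
        (a x * ψ.1 ((l : ℕ) + x))) +
      ε ^ (1 + ((l : ℕ) - ls) - (((l : ℕ) + d + 1) - (ls + d))) • (b * ψ.1 ((l : ℕ) + d + 1)) := by
  simp [TT]

lemma TT_semicont (a : ℕ → K[X]) (b : K[X]) (d L B ls : ℕ) :
    {ε | ¬ finrank K (LinearMap.ker (TT a b d L B ls ε)) ≤
      finrank K (LinearMap.ker (TT a b d L B ls 0))}.Finite := by
  classical
  refine semicont_one (fun ε => TT a b d L B ls ε) ?_
  intro ψ g
  have : (fun θ => g (TT a b d L B ls θ ψ)) = fun θ => ∑ l : Fin B,
      ((∑ x ∈ range (d + 1), θ ^ (((l : ℕ) - ls) - (((l : ℕ) + x) - (ls + d))) *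
        g (Pi.single l (a x * ψ.1 ((l : ℕ) + x)))) +
      θ ^ (1 + ((l : ℕ) - ls) - (((l : ℕ) + d + 1) - (ls + d))) *
        g (Pi.single l (b * ψ.1 ((l : ℕ) + d + 1)))) := by
    funext θ
    conv_lhs => rw [← Finset.univ_sum_single (TT a b d L B ls θ ψ)]
    rw [map_sum]
    refine Finset.sum_congr rfl fun l _ => ?_
    rw [TT_apply]
    have hg : ∀ w : K[X], g (Pi.single l w) = (g.comp (LinearMap.single K (fun _ => K[X]) l)) w := by
      intro w; rfl
    simp only [hg, map_add, map_sum, map_smul, smul_eq_mul]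
  rw [this]
  have hsum := Subring.sum_mem (polyFun K) (t := (Finset.univ : Finset (Fin B)))
    (f := fun l => fun θ : K => ((∑ x ∈ range (d + 1),
        θ ^ (((l : ℕ) - ls) - (((l : ℕ) + x) - (ls + d))) *
        g (Pi.single l (a x * ψ.1 ((l : ℕ) + x)))) +
      θ ^ (1 + ((l : ℕ) - ls) - (((l : ℕ) + d + 1) - (ls + d))) *
        g (Pi.single l (b * ψ.1 ((l : ℕ) + d + 1))))) (by
      intro l _
      refine Subring.add_mem _ ?_ (polyFun_pow _ _)
      have hs := Subring.sum_mem (polyFun K) (t := range (d + 1))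
        (f := fun x => fun θ : K => θ ^ (((l : ℕ) - ls) - (((l : ℕ) + x) - (ls + d))) *
        g (Pi.single l (a x * ψ.1 ((l : ℕ) + x)))) (fun x _ => polyFun_pow _ _)
      convert hs using 1
      funext θ
      simp)
  convert hsum using 1
  funext θ
  simp

/-- rescaling embeds the solutions of the new recurrence into the kernel of `TT` -/
lemma finrank_NN_le_TT (a : ℕ → K[X]) (b : K[X]) (d L B ls : ℕ) (ε : K) (hε : ε ≠ 0) :
    finrank K (NN (fun x => if x ≤ d then a x else C ε * b) (d + 1) L B) ≤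
      finrank K (LinearMap.ker (TT a b d L B ls ε)) := by
  let S := LinearMap.ker (TT a b d L B ls ε)
  let scal : (ℕ → K[X]) →ₗ[K] (ℕ → K[X]) :=
    LinearMap.pi (fun p => ε ^ (p - (ls + d)) • LinearMap.proj p)
  have hscal : ∀ ψ p, scal ψ p = ε ^ (p - (ls + d)) • ψ p := by intro ψ p; simp [scal]
  refine finrank_le_of_cover (B := S) (scal.comp (NN _ (d + 1) L B).subtype) ?_
    ((VV K (B + d + 1) L).subtype.comp S.subtype) ?_
  · refine (injective_iff_map_eq_zero _).2 ?_
    rintro ⟨ψ, h⟩ hψ
    apply Subtype.ext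
    funext p
    have := congrFun hψ p
    simp only [LinearMap.comp_apply, Submodule.subtype_apply, hscal, Pi.zero_apply] at this
    simpa [hε] using this
  · rintro ⟨ψ, hψ1, hψ2⟩
    have hmem : scal ψ ∈ VV K (B + d + 1) L := by
      intro p
      rw [hscal]
      refine ⟨Submodule.smul_mem _ _ (hψ1 p).1, fun hp => ?_⟩
      rw [(hψ1 p).2 (by omega), smul_zero]
    refine ⟨⟨⟨scal ψ, hmem⟩, ?_⟩, rfl⟩
    rw [LinearMap.mem_ker]
    funext l
    rw [TT_apply]
    have heq := hψ2 l l.2
    rw [Finset.sum_range_succ] at heq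
    simp only [Pi.zero_apply]
    have e1 : ∑ x ∈ range (d + 1), ε ^ (((l : ℕ) - ls) - (((l : ℕ) + x) - (ls + d))) •
        (a x * scal ψ ((l : ℕ) + x)) = ε ^ ((l : ℕ) - ls) • ∑ x ∈ range (d + 1),
          (if x ≤ d then a x else C ε * b) * ψ ((l : ℕ) + x) := by
      rw [Finset.smul_sum]
      refine Finset.sum_congr rfl fun x hx => ?_
      have hx' : x ≤ d := by
        have := Finset.mem_range.1 hx
        omega
      rw [hscal, if_pos hx', mul_smul_comm, smul_smul, ← pow_add]
      congr 2
      omega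
    have e2 : ε ^ (1 + ((l : ℕ) - ls) - (((l : ℕ) + d + 1) - (ls + d))) •
        (b * scal ψ ((l : ℕ) + d + 1)) = ε ^ ((l : ℕ) - ls) •
          ((C ε * b) * ψ ((l : ℕ) + d + 1)) := by
      rw [hscal, mul_smul_comm, smul_smul, ← pow_add]
      have : C ε * b * ψ ((l : ℕ) + d + 1) = ε • (b * ψ ((l : ℕ) + d + 1)) := by
        rw [mul_assoc, ← smul_eq_C_mul]
      rw [this, smul_smul, ← pow_succ]
      congr 2
      omega
    have heq2 : ∑ x ∈ range (d + 1), (if x ≤ d then a x else C ε * b) * ψ ((l : ℕ) + x) +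
        (C ε * b) * ψ ((l : ℕ) + d + 1) = 0 := by
      have h3 : ¬ (d + 1 ≤ d) := by omega
      simpa [h3, add_assoc] using heq
    change (∑ x ∈ range (d + 1), ε ^ (((l : ℕ) - ls) - (((l : ℕ) + x) - (ls + d))) •
        (a x * scal ψ ((l : ℕ) + x))) + ε ^ (1 + ((l : ℕ) - ls) - (((l : ℕ) + d + 1) - (ls + d))) •
        (b * scal ψ ((l : ℕ) + d + 1)) = 0
    rw [e1, e2, ← smul_add, heq2, smul_zero]

end H474FL
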