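import Mathlib
import Pool.Agent.H474R3.FL.Core2

open Polynomial Module Finset

namespace H474FL

variable {K : Type*} [Field K]

lemma TT0_low {a : ℕ → K[X]} {b : K[X]} {d L B ls : ℕ} {ψ : VV K (B + d + 1) L}
    (h : TT a b d L B ls 0 ψ = 0) {l : ℕ} (hl : l < ls) (hB : l < B) :
    ∑ x ∈ range (d + 1), a x * ψ.1 (l + x) = 0 := by
  have h1 := congrFun h ⟨l, hB⟩
  rw [TT_apply] at h1
  simp only [Pi.zero_apply] at h1
  rw [← h1]
  have e2 : 1 + (l - ls) - ((l + d + 1) - (ls + d)) = 1 := by omega
  rw [e2, pow_one, zero_smul, add_zero]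
  refine Finset.sum_congr rfl fun x hx => ?_
  have hx' : x ≤ d := by
    have := Finset.mem_range.1 hx
    omega
  have e1 : (l - ls) - ((l + x) - (ls + d)) = 0 := by omega
  rw [e1, pow_zero, one_smul]

lemma TT0_mid {a : ℕ → K[X]} {b : K[X]} {d L B ls : ℕ} {ψ : VV K (B + d + 1) L}
    (h : TT a b d L B ls 0 ψ = 0) (hB : ls < B) :
    (∑ x ∈ range (d + 1), a x * ψ.1 (ls + x)) + b * ψ.1 (ls + d + 1) = 0 := by
  have h1 := congrFun h ⟨ls, hB⟩
  rw [TT_apply] at h1
  simp only [Pi.zero_apply] at h1
  rw [← h1]
  have e2 : 1 + (ls - ls) - ((ls + d + 1) - (ls + d)) = 0 := by omega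
  rw [e2, pow_zero, one_smul]
  congr 1
  refine Finset.sum_congr rfl fun x hx => ?_
  have hx' : x ≤ d := by
    have := Finset.mem_range.1 hx
    omega
  have e1 : (ls - ls) - ((ls + x) - (ls + d)) = 0 := by omega
  rw [e1, pow_zero, one_smul]

lemma TT0_high {a : ℕ → K[X]} {b : K[X]} {d L B ls : ℕ} {ψ : VV K (B + d + 1) L}
    (h : TT a b d L B ls 0 ψ = 0) {l : ℕ} (hl : ls < l) (hB : l < B) :
    a d * ψ.1 (l + d) + b * ψ.1 (l + d + 1) = 0 := by
  have h1 := congrFun h ⟨l, hB⟩
  rw [TT_apply] at h1
  simp only [Pi.zero_apply] at h1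
  rw [← h1, Finset.sum_range_succ]
  have e2 : 1 + (l - ls) - ((l + d + 1) - (ls + d)) = 0 := by omega
  have e3 : (l - ls) - ((l + d) - (ls + d)) = 0 := by omega
  have e4 : ∑ x ∈ range d, (0 : K) ^ ((l - ls) - ((l + x) - (ls + d))) • (a x * ψ.1 (l + x)) = 0 := by
    refine Finset.sum_eq_zero fun x hx => ?_
    have hx' : x < d := Finset.mem_range.1 hx
    have e1 : (l - ls) - ((l + x) - (ls + d)) ≠ 0 := by omega
    rw [zero_pow e1, zero_smul]
  rw [e2, e3, e4, pow_zero, one_smul, one_smul, zero_add]

/-- truncation of sequences -/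
noncomputable def trunc (K : Type*) [Field K] (n : ℕ) : (ℕ → K[X]) →ₗ[K] (ℕ → K[X]) :=
  LinearMap.pi (fun p => if p < n then LinearMap.proj p else 0)

lemma trunc_apply (n : ℕ) (ψ : ℕ → K[X]) (p : ℕ) :
    trunc K n ψ p = if p < n then ψ p else 0 := by
  simp only [trunc, LinearMap.pi_apply]
  split_ifs <;> rfl

lemma kerTT_low (a : ℕ → K[X]) (b : K[X]) (d L B ls : ℕ) (hB : B ≤ ls) :
    finrank K (LinearMap.ker (TT a b d L B ls 0)) ≤ finrank K (NN a d L B) + L := by
  let S := LinearMap.ker (TT a b d L B ls 0)
  have h1 : finrank K (NN a d L B) + L = finrank K (NN a d L B × (Fin L → K)) := by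
    rw [Module.finrank_prod, finrank_fin_fun]
  rw [h1]
  refine finrank_le_of_cover (A := S) (C := (ℕ → K[X]) × K[X])
    ((LinearMap.prod (trunc K (B + d)) (LinearMap.proj (B + d))).comp
      ((VV K (B + d + 1) L).subtype.comp S.subtype)) ?_
    (LinearMap.prodMap (NN a d L B).subtype (polyOf K L)) ?_
  · refine (injective_iff_map_eq_zero _).2 ?_
    rintro ⟨⟨ψ, hψ⟩, h⟩ h0
    have h01 : trunc K (B + d) ψ = 0 := congrArg Prod.fst h0
    have h02 : ψ (B + d) = 0 := congrArg Prod.snd h0
    apply Subtype.ext
    apply Subtype.ext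
    funext p
    change ψ p = 0
    rcases lt_trichotomy p (B + d) with hp | hp | hp
    · have := congrFun h01 p
      rw [trunc_apply, if_pos hp] at this
      exact this
    · rw [hp]; exact h02
    · exact (hψ p).2 (by omega)
  · rintro ⟨⟨ψ, hψ⟩, h⟩
    obtain ⟨E, hE⟩ := polyOf_surj (hψ (B + d)).1
    have hN : trunc K (B + d) ψ ∈ NN a d L B := by
      refine ⟨?_, ?_⟩
      · intro p
        rw [trunc_apply]
        split_ifs with hp
        · exact ⟨(hψ p).1, fun h' => absurd h' (by omega)⟩
        · exact ⟨Submodule.zero_mem _, fun _ => rfl⟩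
      · intro l hl
        have := TT0_low (ψ := ⟨ψ, hψ⟩) (LinearMap.mem_ker.1 h) (show l < ls by omega) hl
        rw [← this]
        refine Finset.sum_congr rfl fun x hx => ?_
        have hx' : x ≤ d := by
          have := Finset.mem_range.1 hx
          omega
        rw [trunc_apply, if_pos (by omega)]
    refine ⟨(⟨_, hN⟩, E), ?_⟩
    simp only [LinearMap.prodMap_apply, Submodule.subtype_apply, LinearMap.comp_apply,
      LinearMap.prod_apply, hE]
    rfl

/-- the linking functional -/
noncomputable def FF {r : ℕ} (a : ℕ → K[X]) (α : Fin r → K) (d L ls : ℕ) :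
    NN a d L ls →ₗ[K] (Fin r → K) :=
  LinearMap.pi (fun i => (Polynomial.leval (α i)).comp
    ((∑ x ∈ range d, (LinearMap.mulLeft K (a x)).comp (LinearMap.proj (ls + x))).comp
      (NN a d L ls).subtype))

lemma FF_apply {r : ℕ} (a : ℕ → K[X]) (α : Fin r → K) (d L ls : ℕ) (ψ : NN a d L ls)
    (i : Fin r) : FF a α d L ls ψ i = (∑ x ∈ range d, a x * ψ.1 (ls + x)).eval (α i) := by
  simp [FF, eval_finsetSum]

lemma FF_inj {r : ℕ} {a : ℕ → K[X]} {α : Fin r → K} {c : K} {d L ls : ℕ}
    (hα : Function.Injective α) (hc : c ≠ 0) (hdeg : ∀ x, (a x).natDegree ≤ r)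
    (had : a d = C c * ∏ j, (X - C (α j))) (hN : finrank K (NN a d L (ls + 1)) = 0) :
    ∀ v, FF a α d L ls v = 0 → v = 0 := by
  classical
  rintro ⟨ψ, hψ⟩ h
  set P : K[X] := ∏ j, (X - C (α j)) with hP
  have hPm : P.Monic := monic_prod_of_monic _ _ (fun j _ => monic_X_sub_C _)
  have hPd : P.natDegree = r := by
    rw [hP, natDegree_prod_of_monic _ _ (fun j _ => monic_X_sub_C _)]
    simp
  set S : K[X] := ∑ x ∈ range d, a x * ψ (ls + x) with hS
  have hdvd : P ∣ S := by
    rw [hP]
    refine Finset.prod_dvd_of_coprime ?_ ?_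
    · intro i _ j _ hij
      exact pairwise_coprime_X_sub_C hα hij
    · intro j _
      refine dvd_iff_isRoot.2 ?_
      have := congrFun h j
      rw [FF_apply] at this
      exact this
  obtain ⟨Q, hQ⟩ := hdvd
  have hSdeg : S ∈ degreeLT K (L + r) := by
    rw [hS]
    refine Submodule.sum_mem _ fun x _ => ?_
    rw [mem_degreeLT]
    have h1 := (hψ.1 (ls + x)).1
    rw [mem_degreeLT] at h1
    by_cases h0 : a x * ψ (ls + x) = 0
    · rw [h0, degree_zero]; exact WithBot.bot_lt_coe _
    · have ha0 : a x ≠ 0 := left_ne_zero_of_mul h0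
      have hp0 : ψ (ls + x) ≠ 0 := right_ne_zero_of_mul h0
      rw [← natDegree_lt_iff_degree_lt hp0] at h1
      rw [← natDegree_lt_iff_degree_lt h0, natDegree_mul ha0 hp0]
      have := hdeg x
      omega
  have hQdeg : Q ∈ degreeLT K L := by
    have := degree_lt_of_mul hPd hPm.ne_zero hQ hSdeg
    simpa using this
  let χ : K[X] := -(C c⁻¹ * Q)
  have hχ : a d * χ = -S := by
    rw [had, hQ]
    simp only [χ]
    have : C c * C c⁻¹ = (1 : K[X]) := by rw [← C_mul, mul_inv_cancel₀ hc, C_1]
    calc C c * P * -(C c⁻¹ * Q) = -((C c * C c⁻¹) * (P * Q)) := by ring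
      _ = -(P * Q) := by rw [this, one_mul]
  have hχdeg : χ ∈ degreeLT K L := by
    refine Submodule.neg_mem _ ?_
    rw [← smul_eq_C_mul]
    exact Submodule.smul_mem _ _ hQdeg
  have hmem : Function.update ψ (ls + d) χ ∈ NN a d L (ls + 1) := by
    refine ⟨?_, ?_⟩
    · intro p
      by_cases hp : p = ls + d
      · subst hp
        rw [Function.update_self]
        exact ⟨hχdeg, fun h' => absurd h' (by omega)⟩
      · rw [Function.update_of_ne hp]
        exact ⟨(hψ.1 p).1, fun h' => (hψ.1 p).2 (by omega)⟩
    · intro l hl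
      rcases Nat.lt_or_ge l ls with hl' | hl'
      · rw [← hψ.2 l hl']
        refine Finset.sum_congr rfl fun x hx => ?_
        have hx' : x ≤ d := by
          have := Finset.mem_range.1 hx
          omega
        rw [Function.update_of_ne (by omega)]
      · have : l = ls := by omega
        subst this
        rw [Finset.sum_range_succ, Function.update_self, hχ]
        have : ∑ x ∈ range d, a x * Function.update ψ (l + d) χ (l + x) = S := by
          rw [hS]
          refine Finset.sum_congr rfl fun x hx => ?_
          have hx' : x < d := Finset.mem_range.1 hx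
          rw [Function.update_of_ne (by omega)]
        rw [this]
        ring
  rw [Submodule.finrank_eq_zero] at hN
  rw [hN, Submodule.mem_bot] at hmem
  apply Subtype.ext
  funext p
  change ψ p = 0
  by_cases hp : p = ls + d
  · exact (hψ.1 p).2 (by omega)
  · have := congrFun hmem p
    rw [Function.update_of_ne hp] at this
    exact this

lemma kerTT_high {r : ℕ} (a : ℕ → K[X]) (α β : Fin r → K) (c : K) (d L B ls : ℕ)
    (hc : c ≠ 0) (hβα : ∀ i j, β j ≠ α i)
    (had : a d = C c * ∏ j, (X - C (α j))) (hB : ls < B) :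
    finrank K (LinearMap.ker (TT a (∏ j, (X - C (β j))) d L B ls 0)) ≤
      finrank K (LinearMap.ker (Xi (FF a α d L ls) α (fun i => (∏ j, (α i - β j)) ^ (B - ls))
        (L + r - (B - ls) * r))) := by
  classical
  set b : K[X] := ∏ j, (X - C (β j)) with hb
  have hbm : b.Monic := monic_prod_of_monic _ _ (fun j _ => monic_X_sub_C _)
  have hbd : b.natDegree = r := by
    rw [hb, natDegree_prod_of_monic _ _ (fun j _ => monic_X_sub_C _)]
    simp
  have hbeval : ∀ i, b.eval (α i) = ∏ j, (α i - β j) := by
    intro i
    rw [hb, eval_prod]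
    simp
  have ha0 : a d ≠ 0 := by
    rw [had]
    exact mul_ne_zero (by simpa using hc) (monic_prod_of_monic _ _ (fun j _ => monic_X_sub_C _)).ne_zero
  have haeval : ∀ i, (a d).eval (α i) = 0 := by
    intro i
    rw [had, eval_mul, eval_prod]
    rw [Finset.prod_eq_zero (Finset.mem_univ i) (by simp), mul_zero]
  have hcop : IsCoprime b (a d) := by
    rw [had]
    refine (isCoprime_mul_unit_left_right ?_ b _).2 ?_
    · exact (isUnit_C).2 (isUnit_iff_ne_zero.2 hc)
    · rw [hb]
      refine IsCoprime.prod_left fun j _ => IsCoprime.prod_right fun i _ => ?_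
      exact isCoprime_X_sub_C_of_isUnit_sub (isUnit_iff_ne_zero.2 (sub_ne_zero.2 (hβα i j)))
  let S := LinearMap.ker (TT a b d L B ls 0)
  let S2 := LinearMap.ker (Xi (FF a α d L ls) α (fun i => (∏ j, (α i - β j)) ^ (B - ls))
        (L + r - (B - ls) * r))
  refine finrank_le_of_cover (A := S) (B := S2) (C := (ℕ → K[X]) × K[X])
    ((LinearMap.prod (trunc K (ls + d)) (LinearMap.proj (ls + d + 1))).comp
      ((VV K (B + d + 1) L).subtype.comp S.subtype)) ?_
    ((LinearMap.prodMap (NN a d L ls).subtype
      ((LinearMap.mulLeft K (b ^ (B - ls - 1))).comp (polyOf K (L + r - (B - ls) * r)))).comp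
        S2.subtype) ?_
  · refine (injective_iff_map_eq_zero _).2 ?_
    rintro ⟨⟨ψ, hψ⟩, h⟩ h0
    have h01 : trunc K (ls + d) ψ = 0 := congrArg Prod.fst h0
    have h02 : ψ (ls + d + 1) = 0 := congrArg Prod.snd h0
    have hk := LinearMap.mem_ker.1 h
    apply Subtype.ext
    apply Subtype.ext
    funext p
    change ψ p = 0
    have hlow : ∀ p, p < ls + d → ψ p = 0 := by
      intro p hp
      have := congrFun h01 p
      rw [trunc_apply, if_pos hp] at this
      exact this
    rcases Nat.lt_or_ge p (ls + d) with hp | hp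
    · exact hlow p hp
    rcases Nat.lt_or_ge (ls + d) p with hp' | hp'
    · have key : ∀ k, ψ (ls + d + 1 + k) = 0 := by
        intro k
        induction k with
        | zero => exact h02
        | succ k ih =>
          rcases Nat.lt_or_ge (ls + 1 + k) B with hk1 | hk1
          · have := TT0_high (ψ := ⟨ψ, hψ⟩) hk (show ls < ls + 1 + k by omega) hk1
            simp only at this
            rw [show ls + 1 + k + d = ls + d + 1 + k by ring, ih, mul_zero, zero_add] at this
            rcases mul_eq_zero.1 this with h' | h'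
            · exact absurd h' hbm.ne_zero
            · exact h'
          · exact (hψ _).2 (by omega)
      have := key (p - (ls + d + 1))
      rwa [show ls + d + 1 + (p - (ls + d + 1)) = p by omega] at this
    · have hpe : p = ls + d := by omega
      have := TT0_mid (ψ := ⟨ψ, hψ⟩) hk hB
      simp only at this
      rw [h02, mul_zero, add_zero, Finset.sum_range_succ] at this
      have hz : ∑ x ∈ range d, a x * ψ (ls + x) = 0 := by
        refine Finset.sum_eq_zero fun x hx => ?_
        have hx' : x < d := Finset.mem_range.1 hx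
        rw [hlow _ (by omega), mul_zero]
      rw [hz, zero_add] at this
      rcases mul_eq_zero.1 this with h' | h'
      · exact absurd h' ha0
      · rw [hpe]; exact h'
  · rintro ⟨⟨ψ, hψ⟩, h⟩
    have hk := LinearMap.mem_ker.1 h
    have hdvd : ∀ m, m ≤ B - ls - 1 → b ^ m ∣ ψ (B + d - m) := by
      intro m
      induction m with
      | zero => intro _; simp
      | succ m ih =>
        intro hm
        have ih' := ih (by omega)
        have := TT0_high (ψ := ⟨ψ, hψ⟩) hk (show ls < B - m - 1 by omega) (by omega)
        simp only at this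
        rw [show B - m - 1 + d + 1 = B + d - m by omega,
          show B - m - 1 + d = B + d - (m + 1) by omega] at this
        have h3 : b ^ (m + 1) ∣ a d * ψ (B + d - (m + 1)) := by
          have h4 : a d * ψ (B + d - (m + 1)) = -(b * ψ (B + d - m)) := by
            linear_combination this
          rw [h4, dvd_neg, pow_succ']
          exact mul_dvd_mul_left b ih'
        exact (IsCoprime.pow_left hcop).dvd_of_dvd_mul_left h3
    have hd := hdvd (B - ls - 1) le_rfl
    rw [show B + d - (B - ls - 1) = ls + d + 1 by omega] at hd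
    obtain ⟨Q, hQ⟩ := hd
    have hQdeg : Q ∈ degreeLT K (L + r - (B - ls) * r) := by
      have := degree_lt_of_mul (k := (B - ls - 1) * r) (by rw [hbm.natDegree_pow, hbd])
        (pow_ne_zero _ hbm.ne_zero) hQ (hψ (ls + d + 1)).1
      have e : L - (B - ls - 1) * r = L + r - (B - ls) * r := by
        have : (B - ls) * r = (B - ls - 1) * r + r := by
          conv_lhs => rw [show B - ls = (B - ls - 1) + 1 by omega]
          ring
        omega
      rwa [e] at this
    obtain ⟨E, hE⟩ := polyOf_surj hQdeg
    have hN : trunc K (ls + d) ψ ∈ NN a d L ls := by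
      refine ⟨?_, ?_⟩
      · intro p
        rw [trunc_apply]
        split_ifs with hp
        · exact ⟨(hψ p).1, fun h' => absurd h' (by omega)⟩
        · exact ⟨Submodule.zero_mem _, fun _ => rfl⟩
      · intro l hl
        have := TT0_low (ψ := ⟨ψ, hψ⟩) hk hl (by omega)
        rw [← this]
        refine Finset.sum_congr rfl fun x hx => ?_
        have hx' : x ≤ d := by
          have := Finset.mem_range.1 hx
          omega
        rw [trunc_apply, if_pos (by omega)]
    refine ⟨⟨(⟨_, hN⟩, E), ?_⟩, ?_⟩
    · rw [LinearMap.mem_ker]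
      funext i
      rw [Xi_apply, FF_apply, hE]
      have hmid := TT0_mid (ψ := ⟨ψ, hψ⟩) hk hB
      simp only at hmid
      rw [Finset.sum_range_succ] at hmid
      have h5 := congrArg (fun P : K[X] => P.eval (α i)) hmid
      simp only [eval_add, eval_mul, haeval, zero_mul, add_zero, eval_zero, hQ, hbeval, eval_pow] at h5
      have h6 : (∑ x ∈ range d, a x * trunc K (ls + d) ψ (ls + x)) =
          ∑ x ∈ range d, a x * ψ (ls + x) := by
        refine Finset.sum_congr rfl fun x hx => ?_
        have hx' : x < d := Finset.mem_range.1 hx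
        rw [trunc_apply, if_pos (by omega)]
      simp only [Pi.zero_apply]
      rw [h6, ← h5]
      have h7 : (∏ j, (α i - β j)) ^ (B - ls) =
          (∏ j, (α i - β j)) * (∏ j, (α i - β j)) ^ (B - ls - 1) := by
        rw [← pow_succ']
        congr 1
        omega
      rw [h7]
      ring
    · simp only [LinearMap.prodMap_apply, Submodule.subtype_apply, LinearMap.comp_apply,
        LinearMap.prod_apply, hE, LinearMap.mulLeft_apply]
      rw [← hQ]
      rfl

/-- **Core theorem.** -/
theorem core [Infinite K] (r L M : ℕ) (hr : 1 ≤ r) : ∀ d : ℕ,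
    ∃ (a : ℕ → K[X]) (α : Fin r → K) (c : K), Function.Injective α ∧ c ≠ 0 ∧
      (∀ x, (a x).natDegree ≤ r) ∧ a d = C c * ∏ j, (X - C (α j)) ∧ (a 0).eval 0 ≠ 0 ∧
      ∀ B ≤ M, finrank K (NN a d L B) ≤ d * L - B * r := by
  classical
  intro d
  induction d with
  | zero =>
    have hinf : ({(0 : K)}ᶜ : Set K).Infinite := (Set.finite_singleton (0 : K)).infinite_compl
    let γ : ℕ ↪ ({(0 : K)}ᶜ : Set K) := hinf.natEmbedding
    let α : Fin r → K := fun i => ((γ i : ({(0 : K)}ᶜ : Set K)) : K)
    have hα : Function.Injective α := fun i j h =>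
      Fin.ext (γ.injective (Subtype.ext h))
    have hα0 : ∀ i, α i ≠ 0 := fun i h => (γ (i : ℕ)).2 h
    have hPm : (∏ j, (X - C (α j)) : K[X]).Monic :=
      monic_prod_of_monic _ _ (fun j _ => monic_X_sub_C _)
    refine ⟨fun _ => ∏ j, (X - C (α j)), α, 1, hα, one_ne_zero, ?_, by simp, ?_, ?_⟩
    · intro x
      rw [natDegree_prod_of_monic _ _ (fun j _ => monic_X_sub_C _)]
      simp
    · simp only [eval_prod, eval_sub, eval_X, eval_C, zero_sub]
      exact Finset.prod_ne_zero_iff.2 fun j _ => neg_ne_zero.2 (hα0 j)
    · intro B _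
      have : NN (fun _ => ∏ j, (X - C (α j)) : ℕ → K[X]) 0 L B = ⊥ := by
        rw [eq_bot_iff]
        intro ψ hψ
        rw [Submodule.mem_bot]
        funext p
        rcases Nat.lt_or_ge p B with hp | hp
        · have := hψ.2 p hp
          simp only [zero_add, Finset.sum_range_one, add_zero] at this
          rcases mul_eq_zero.1 this with h' | h'
          · exact absurd h' hPm.ne_zero
          · exact h'
        · exact (hψ.1 p).2 (by omega)
      rw [this, finrank_bot]
      exact Nat.zero_le _
  | succ d ih =>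
    obtain ⟨a, α, c, hα, hc, hdeg, had, ha00, hNN⟩ := ih
    set ls := d * L / r with hls
    have hdiv : r * ls + d * L % r = d * L := by
      rw [hls, mul_comm]
      have := Nat.div_add_mod (d * L) r
      rw [mul_comm] at this
      exact this
    have hmod : d * L % r < r := Nat.mod_lt _ hr
    set θ := d * L % r with hθ
    have hFF : ls + 1 ≤ M → ∀ v, FF a α d L ls v = 0 → v = 0 := by
      intro hM
      apply FF_inj hα hc hdeg had
      have := hNN (ls + 1) hM
      have h2 : d * L - (ls + 1) * r = 0 := by
        have : (ls + 1) * r = r * ls + r := by ring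
        omega
      omega
    have hVdim : ls ≤ M → finrank K (NN a d L ls) ≤ θ := by
      intro hM
      have := hNN ls hM
      have h2 : ls * r = r * ls := by ring
      omega
    obtain ⟨β, hβ, hβα, hbound⟩ : ∃ β : Fin r → K, Function.Injective β ∧ (∀ i j, β j ≠ α i) ∧
        (ls + 1 ≤ M → finrank K (LinearMap.ker (Xi (FF a α d L ls) α
          (fun i => (∏ j, (α i - β j)) ^ (L / r + 1)) (L + r - (L / r + 1) * r)))
          ≤ finrank K (NN a d L ls) + (L + r - (L / r + 1) * r) - r) := by
      by_cases hM : ls + 1 ≤ M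
      · obtain ⟨β, h1, h2, h3⟩ := exists_beta (hFF hM) hα (L / r + 1) (Nat.le_add_left 1 _)
          (L + r - (L / r + 1) * r)
        exact ⟨β, h1, h2, fun _ => h3⟩
      · obtain ⟨β, h1, h2, _⟩ := exists_beta (V := Fin 0 → K) (F := 0)
          (fun v _ => Subsingleton.elim _ _) hα 1 le_rfl 0
        exact ⟨β, h1, h2, fun h => absurd h hM⟩
    set b : K[X] := ∏ j, (X - C (β j)) with hb
    have hbd : b.natDegree = r := by
      rw [hb, natDegree_prod_of_monic _ _ (fun j _ => monic_X_sub_C _)]
      simp
    have hbad : (⋃ B ∈ Set.Iic M, {ε : K | ¬ finrank K (LinearMap.ker (TT a b d L B ls ε)) ≤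
      finrank K (LinearMap.ker (TT a b d L B ls 0))}).Finite :=
      Set.Finite.biUnion (Set.finite_Iic M) (fun B _ => TT_semicont a b d L B ls)
    obtain ⟨ε, hε⟩ := ((hbad.union (Set.finite_singleton (0 : K))).infinite_compl).nonempty
    simp only [Set.mem_compl_iff, Set.mem_union, not_or, Set.mem_singleton_iff] at hε
    obtain ⟨hε1, hε0⟩ := hε
    have hεB : ∀ B ≤ M, finrank K (LinearMap.ker (TT a b d L B ls ε)) ≤
      finrank K (LinearMap.ker (TT a b d L B ls 0)) := by
      intro B hB
      by_contra h
      apply hε1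
      simp only [Set.mem_iUnion]
      exact ⟨B, hB, h⟩
    refine ⟨fun x => if x ≤ d then a x else C ε * b, β, ε, hβ, hε0, ?_, ?_, by simpa using ha00, ?_⟩
    · intro x
      by_cases hx : x ≤ d
      · simp only [hx, if_true]
        exact hdeg x
      · simp only [hx, if_false]
        exact (natDegree_C_mul_le _ _).trans hbd.le
    · have : ¬ (d + 1 ≤ d) := by omega
      simp only [this, if_false]
      rw [hb]
    · intro B hB
      refine (finrank_NN_le_TT a b d L B ls ε hε0).trans ((hεB B hB).trans ?_)
      rcases Nat.lt_or_ge ls B with hlB | hlB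
      · -- high case
        refine (kerTT_high a α β c d L B ls hc hβα had hlB).trans ?_
        have hV := hVdim (by omega)
        have hM : ls + 1 ≤ M := by omega
        obtain ⟨n, hn⟩ : ∃ n, B = ls + n := ⟨B - ls, by omega⟩
        have hn1 : 1 ≤ n := by omega
        have hBn : B - ls = n := by omega
        rw [hBn]
        have htarget : (d + 1) * L - B * r = θ + L - n * r := by
          have : B * r = r * ls + n * r := by rw [hn]; ring
          have : (d + 1) * L = d * L + L := by ring
          omega
        rw [htarget]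
        have hρ : ∀ i, (fun i => (∏ j, (α i - β j)) ^ n) i ≠ 0 := by
          intro i
          refine pow_ne_zero _ (Finset.prod_ne_zero_iff.2 fun j _ => sub_ne_zero.2 ?_)
          exact (hβα i j).symm
        rcases Nat.lt_or_ge L (n * r) with h1 | h1
        · rcases Nat.lt_or_ge (n * r) (L + r) with h2 | h2
          · -- the generic case
            have hn0 : n = L / r + 1 := by
              have h3 : L / r < n := by
                rw [Nat.div_lt_iff_lt_mul hr]
                exact h1
              have h4 : n - 1 ≤ L / r := by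
                rw [Nat.le_div_iff_mul_le hr]
                have : n * r = (n - 1) * r + r := by
                  conv_lhs => rw [show n = (n - 1) + 1 by omega]
                  ring
                omega
              omega
            have h5 := hbound hM
            rw [← hn0] at h5
            refine h5.trans ?_
            omega
          · have h3 : L + r - n * r = 0 := by omega
            rw [h3]
            exact (Xi_zero (hFF hM) α _ _)
        · refine (Xi_big hα hρ _).trans ?_
          omega
      · -- low case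
        refine (kerTT_low a b d L B ls hlB).trans ?_
        have h1 := hNN B hB
        have h2 : B * r ≤ d * L := by
          have : B * r ≤ ls * r := Nat.mul_le_mul_right r hlB
          have h3 : ls * r = r * ls := by ring
          omega
        have h3 : (d + 1) * L = d * L + L := by ring
        omega

end H474FL
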