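import Mathlib

/-! Definitions used in the statement of the theorem on generic bigraded Hilbert functions of
three forms on `P^1 x P^1`. -/

namespace H474FL

/-- The bidegrees of the four variables `s, t, u, v` of `K[s,t;u,v]`. -/
def wt : Fin 4 → ℕ × ℕ := ![(1, 0), (1, 0), (0, 1), (0, 1)]

/-- `R_a`: the bihomogeneous polynomials of bidegree `a` in `R = K[s,t;u,v]`. -/
noncomputable def Piece (K : Type*) [Field K] (a : ℕ × ℕ) :
    Submodule K (MvPolynomial (Fin 4) K) :=
  MvPolynomial.weightedHomogeneousSubmodule K wt a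

/-- `dim_K (R/I)_a` for the ideal `I` generated by `f 0, f 1, f 2`: the dimension of the image of
`R_a` in `R/I`. -/
noncomputable def hilb {K : Type*} [Field K] (f : Fin 3 → MvPolynomial (Fin 4) K) (a : ℕ × ℕ) : ℕ :=
  Module.finrank K
    ((Piece K a).map (Ideal.Quotient.mkₐ K (Ideal.span (Set.range f))).toLinearMap)

/-- `dim R_(x,y)` for `(x,y)` in `Z^2`. -/
def dimR (x y : ℤ) : ℤ := if 0 ≤ x ∧ 0 ≤ y then (x + 1) * (y + 1) else 0

/-- The Euler characteristic in bidegree `a` of the Koszul complex of three forms of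
bidegree `d`. -/
def chi (d a : ℕ × ℕ) : ℤ :=
  dimR (a.1 : ℤ) (a.2 : ℤ) - 3 * dimR ((a.1 : ℤ) - d.1) ((a.2 : ℤ) - d.2)
    + 3 * dimR ((a.1 : ℤ) - 2 * d.1) ((a.2 : ℤ) - 2 * d.2)
    - dimR ((a.1 : ℤ) - 3 * d.1) ((a.2 : ℤ) - 3 * d.2)

/-- The coefficients of a triple of forms. -/
noncomputable def coeffs {K : Type*} [Field K] {d : ℕ × ℕ} (f : Fin 3 → Piece K d) :
    Fin 3 × (Fin 4 →₀ ℕ) → K :=
  fun p => MvPolynomial.coeff p.2 (f p.1 : MvPolynomial (Fin 4) K)

/-- Zariski open subsets of the coefficient space `R_d^3`: complements of common zero sets of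
families of polynomials in the coefficients of the triple. -/
def IsZariskiOpen {K : Type*} [Field K] {d : ℕ × ℕ} (U : Set (Fin 3 → Piece K d)) : Prop :=
  ∃ S : Set (MvPolynomial (Fin 3 × (Fin 4 →₀ ℕ)) K),
    U = {f | ∃ P ∈ S, MvPolynomial.eval (coeffs f) P ≠ 0}

end H474FL
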