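import Mathlib
import Pool.Agent.H474R3.FL.Core3

open Polynomial Module Finset

namespace H474FL

variable {K : Type*} [Field K]

/-- polynomials in two variables, bidegree `< (m, n)` (inner variable first) -/
def BB (K : Type*) [Field K] (m n : ℕ) : Submodule K K[X][X] where
  carrier := {F | ∀ y, F.coeff y ∈ degreeLT K m ∧ (n ≤ y → F.coeff y = 0)}
  add_mem' := by
    intro a b ha hb p
    refine ⟨?_, fun h => ?_⟩
    · rw [coeff_add]
      exact Submodule.add_mem _ (ha p).1 (hb p).1
    · rw [coeff_add, (ha p).2 h, (hb p).2 h, add_zero]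
  zero_mem' := fun p => ⟨by simp, fun _ => by simp⟩
  smul_mem' := by
    intro c a ha p
    refine ⟨?_, fun h => ?_⟩
    · rw [coeff_smul]
      exact Submodule.smul_mem _ c (ha p).1
    · rw [coeff_smul, (ha p).2 h, smul_zero]

lemma mem_BB {m n : ℕ} {F : K[X][X]} :
    F ∈ BB K m n ↔ ∀ y, F.coeff y ∈ degreeLT K m ∧ (n ≤ y → F.coeff y = 0) := Iff.rfl

/-- coefficient sequence -/
noncomputable def cf (K : Type*) [Field K] : K[X][X] →ₗ[K] (ℕ → K[X]) :=
  LinearMap.pi (fun y => (Polynomial.lcoeff K[X] y).restrictScalars K)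

lemma cf_apply (F : K[X][X]) (y : ℕ) : cf K F y = F.coeff y := rfl

lemma cf_inj {F : K[X][X]} (h : cf K F = 0) : F = 0 := by
  ext1 y
  have := congrFun h y
  rw [cf_apply] at this
  simpa using this

/-- polynomial with given coefficient sequence -/
noncomputable def fc (K : Type*) [Field K] (n : ℕ) : (ℕ → K[X]) →ₗ[K] K[X][X] :=
  ∑ y ∈ range n, ((Polynomial.monomial y : K[X] →ₗ[K[X]] K[X][X]).restrictScalars K).comp
    (LinearMap.proj y)

lemma fc_coeff (n : ℕ) (ψ : ℕ → K[X]) (y : ℕ) :
    (fc K n ψ).coeff y = if y < n then ψ y else 0 := by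
  simp only [fc, LinearMap.sum_apply, LinearMap.comp_apply, LinearMap.proj_apply,
    LinearMap.coe_restrictScalars, finsetSum_coeff, coeff_monomial]
  rw [Finset.sum_ite_eq']
  simp

/-- `BB` and `VV` -/
noncomputable def BBequiv (m n : ℕ) : BB K m n ≃ₗ[K] VV K n m :=
  LinearEquiv.ofBijective
    ((((cf K).comp (BB K m n).subtype)).codRestrict (VV K n m) (fun F p => F.2 p)) (by
      constructor
      · refine (injective_iff_map_eq_zero _).2 ?_
        rintro ⟨F, hF⟩ h
        apply Subtype.ext
        exact cf_inj (congrArg Subtype.val h)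
      · rintro ⟨ψ, hψ⟩
        refine ⟨⟨fc K n ψ, ?_⟩, ?_⟩
        · intro y
          rw [fc_coeff]
          split_ifs with h
          · exact ⟨(hψ y).1, fun h' => absurd h' (by omega)⟩
          · exact ⟨Submodule.zero_mem _, fun _ => rfl⟩
        · apply Subtype.ext
          funext y
          change (fc K n ψ).coeff y = ψ y
          rw [fc_coeff]
          split_ifs with h
          · rfl
          · exact ((hψ y).2 (by omega)).symm)

instance (m n : ℕ) : FiniteDimensional K (BB K m n) :=
  Module.Finite.equiv (BBequiv m n).symm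

lemma finrank_BB (m n : ℕ) : finrank K (BB K m n) = n * m := by
  rw [(BBequiv m n).finrank_eq, finrank_VV]

/-- coordinates on `BB` -/
noncomputable def coB (K : Type*) [Field K] (A κ : ℕ) : BB K A κ ≃ₗ[K] (Fin κ → (Fin A → K)) :=
  (BBequiv A κ).trans ((VVequiv κ A).trans (LinearEquiv.piCongrRight fun _ => degreeLTEquiv K A))

/-- coefficient arrays as polynomials in two variables -/
noncomputable def polB (K : Type*) [Field K] (A κ : ℕ) : (Fin κ → (Fin A → K)) →ₗ[K] K[X][X] :=
  (BB K A κ).subtype.comp (coB K A κ).symm.toLinearMap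

lemma polB_mem (A κ : ℕ) (w : Fin κ → (Fin A → K)) : polB K A κ w ∈ BB K A κ :=
  ((coB K A κ).symm w).2

lemma polB_inj {A κ : ℕ} {w : Fin κ → (Fin A → K)} (h : polB K A κ w = 0) : w = 0 := by
  have h1 : (coB K A κ).symm w = 0 := Subtype.ext h
  simpa using h1

lemma polB_surj {A κ : ℕ} {F : K[X][X]} (h : F ∈ BB K A κ) : ∃ w, polB K A κ w = F :=
  ⟨coB K A κ ⟨F, h⟩, by simp [polB]⟩

/-- the map `(g_0,g_1,g_2) ↦ ∑ f_i g_i` -/
noncomputable def Phi (f : Fin 3 → K[X][X]) (A κ : ℕ) : (Fin 3 → Fin κ → Fin A → K) →ₗ[K] K[X][X] :=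
  ∑ i, (LinearMap.mulLeft K (f i)).comp ((polB K A κ).comp (LinearMap.proj i))

lemma Phi_apply (f : Fin 3 → K[X][X]) (A κ : ℕ) (g : Fin 3 → Fin κ → Fin A → K) :
    Phi f A κ g = f 0 * polB K A κ (g 0) + f 1 * polB K A κ (g 1) + f 2 * polB K A κ (g 2) := by
  simp [Phi, Fin.sum_univ_three]

lemma finrank_dom (A κ : ℕ) : finrank K (Fin 3 → Fin κ → Fin A → K) = 3 * (κ * A) := by
  simp [Module.finrank_pi_fintype]

/-- the form `h = ∑ a_q Y^q` -/
noncomputable def hh (a : ℕ → K[X]) (r : ℕ) : K[X][X] := ∑ q ∈ range (r + 1), C (a q) * X ^ q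

lemma hh_coeff (a : ℕ → K[X]) (r y : ℕ) : (hh a r).coeff y = if y ≤ r then a y else 0 := by
  simp only [hh, finsetSum_coeff, coeff_C_mul, coeff_X_pow, mul_ite, mul_one, mul_zero]
  rw [Finset.sum_ite_eq]
  simp

lemma hh_mul_coeff (a : ℕ → K[X]) (r m : ℕ) (G : K[X][X]) :
    (hh a r * G).coeff m = ∑ q ∈ range (r + 1), a q * (if q ≤ m then G.coeff (m - q) else 0) := by
  simp only [hh, Finset.sum_mul, finsetSum_coeff, mul_assoc, coeff_C_mul, coeff_X_pow_mul']

lemma mul_mem_degreeLT {P Q : K[X]} {k e : ℕ} (hP : P.natDegree ≤ k)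
    (hQ : Q ∈ degreeLT K (e - k)) : P * Q ∈ degreeLT K e := by
  rw [mem_degreeLT] at *
  by_cases h0 : P * Q = 0
  · rw [h0, degree_zero]; exact WithBot.bot_lt_coe _
  · have hP0 : P ≠ 0 := left_ne_zero_of_mul h0
    have hQ0 : Q ≠ 0 := right_ne_zero_of_mul h0
    rw [← natDegree_lt_iff_degree_lt hQ0] at hQ
    rw [← natDegree_lt_iff_degree_lt h0, natDegree_mul hP0 hQ0]
    omega

/-- the key divisibility statement -/
lemma key_div {a : ℕ → K[X]} {d₁ r L A : ℕ} (hdeg : ∀ x, (a x).natDegree ≤ d₁)
    (htop : (a r).coeff d₁ ≠ 0) (h0 : (a 0).eval 0 ≠ 0) {G γ1 γ2 : K[X][X]}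
    (hG : G ∈ BB K A (L + r)) (h1 : γ1 ∈ BB K A r) (h2 : γ2 ∈ BB K A r)
    (heq : hh a r * G + X ^ (L + r) * γ1 + C (X ^ d₁) * γ2 = 0) :
    ∃ ψ ∈ NN a r (A - 2 * d₁) L, ∀ y,
      G.coeff y = if y < L + r then X ^ d₁ * ψ (L + r - 1 - y) else 0 := by
  classical
  have E : ∀ m, (∑ q ∈ range (r + 1), a q * (if q ≤ m then G.coeff (m - q) else 0)) +
      (if L + r ≤ m then γ1.coeff (m - (L + r)) else 0) + X ^ d₁ * γ2.coeff m = 0 := by
    intro m
    have := congrArg (fun P : K[X][X] => P.coeff m) heq
    simp only [coeff_add, hh_mul_coeff, coeff_X_pow_mul', coeff_C_mul, coeff_zero] at this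
    exact this
  have hcop : IsCoprime (X ^ d₁ : K[X]) (a 0) := by
    refine IsCoprime.pow_left ?_
    rw [irreducible_X.coprime_iff_not_dvd, X_dvd_iff, coeff_zero_eq_eval_zero]
    exact h0
  have hdvd : ∀ y, y < L + r → X ^ d₁ ∣ G.coeff y := by
    intro y
    induction y using Nat.strong_induction_on with
    | _ y ih =>
      intro hy
      have h3 := E y
      rw [if_neg (by omega), add_zero, Finset.sum_range_succ'] at h3
      simp only [zero_le, if_true, Nat.sub_zero] at h3
      have h4 : X ^ d₁ ∣ ∑ k ∈ range r, a (k + 1) *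
          (if k + 1 ≤ y then G.coeff (y - (k + 1)) else 0) := by
        refine Finset.dvd_sum fun k _ => ?_
        split_ifs with hk
        · exact Dvd.dvd.mul_left (ih _ (by omega) (by omega)) _
        · simp
      have h5 : X ^ d₁ ∣ a 0 * G.coeff y := by
        have : a 0 * G.coeff y = -(∑ k ∈ range r, a (k + 1) *
          (if k + 1 ≤ y then G.coeff (y - (k + 1)) else 0)) - X ^ d₁ * γ2.coeff y := by
          linear_combination h3
        rw [this]
        exact dvd_sub (dvd_neg.2 h4) (Dvd.intro _ rfl)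
      exact hcop.dvd_of_dvd_mul_left h5
  have hrdeg : (a r).natDegree = d₁ := le_antisymm (hdeg r) (le_natDegree_of_ne_zero htop)
  have hr0 : a r ≠ 0 := by
    intro h
    rw [h, coeff_zero] at htop
    exact htop rfl
  have hdeg2 : ∀ k y, L + r ≤ y + k + 1 → G.coeff y ∈ degreeLT K (A - d₁) := by
    intro k
    induction k using Nat.strong_induction_on with
    | _ k ih =>
      intro y hy
      rcases Nat.lt_or_ge y (L + r) with hyn | hyn
      · have h3 := E (y + r)
        rw [Finset.sum_range_succ, (h2 (y + r)).2 (by omega), mul_zero, add_zero] at h3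
        rw [if_pos (show r ≤ y + r by omega), Nat.add_sub_cancel] at h3
        have h4 : ∑ q ∈ range r, a q * (if q ≤ y + r then G.coeff (y + r - q) else 0) ∈
            degreeLT K A := by
          refine Submodule.sum_mem _ fun q hq => ?_
          have hq' : q < r := Finset.mem_range.1 hq
          rw [if_pos (by omega)]
          refine mul_mem_degreeLT (hdeg q) ?_
          rcases Nat.lt_or_ge (y + r - q) (L + r) with h' | h'
          · exact ih (L + r - (y + r - q) - 1) (by omega) _ (by omega)
          · rw [(hG _).2 h']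
            exact Submodule.zero_mem _
        have h5 : (if L + r ≤ y + r then γ1.coeff (y + r - (L + r)) else 0) ∈ degreeLT K A := by
          split_ifs
          · exact (h1 _).1
          · exact Submodule.zero_mem _
        have h6 : a r * G.coeff y ∈ degreeLT K A := by
          have : a r * G.coeff y = -(∑ q ∈ range r, a q *
            (if q ≤ y + r then G.coeff (y + r - q) else 0)) -
            (if L + r ≤ y + r then γ1.coeff (y + r - (L + r)) else 0) := by
            linear_combination h3
          rw [this]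
          exact Submodule.sub_mem _ (Submodule.neg_mem _ h4) h5
        exact degree_lt_of_mul hrdeg hr0 rfl h6
      · rw [(hG _).2 hyn]
        exact Submodule.zero_mem _
  choose! H hH using hdvd
  have hHdeg : ∀ y, y < L + r → H y ∈ degreeLT K (A - 2 * d₁) := by
    intro y hy
    have h3 := hdeg2 (L + r - y) y (by omega)
    have := degree_lt_of_mul (natDegree_X_pow d₁) (pow_ne_zero _ X_ne_zero) (hH y hy) h3
    rwa [show A - d₁ - d₁ = A - 2 * d₁ by omega] at this
  refine ⟨fun p => if p < L + r then H (L + r - 1 - p) else 0, ⟨?_, ?_⟩, ?_⟩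
  · intro p
    by_cases hp : p < L + r
    · simp only [hp, if_true]
      exact ⟨hHdeg _ (by omega), fun h' => absurd h' (by omega)⟩
    · simp only [hp, if_false]
      exact ⟨Submodule.zero_mem _, fun _ => trivial⟩
  · intro l hl
    have h3 := E (L + r - 1 - l)
    rw [if_neg (by omega), add_zero, (h2 _).2 (by omega), mul_zero, add_zero] at h3
    have h4 : (X : K[X]) ^ d₁ * ∑ x ∈ range (r + 1), a x *
        (if l + x < L + r then H (L + r - 1 - (l + x)) else 0) = 0 := by
      rw [← h3, Finset.mul_sum]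
      refine Finset.sum_congr rfl fun q hq => ?_
      have hq' : q ≤ r := by
        have := Finset.mem_range.1 hq
        omega
      rw [if_pos (by omega), if_pos (by omega), hH _ (by omega),
        show L + r - 1 - (l + q) = L + r - 1 - l - q by omega]
      ring
    exact (mul_eq_zero.1 h4).resolve_left (pow_ne_zero _ X_ne_zero)
  · intro y
    split_ifs with hy
    · simp only
      rw [if_pos (by omega), show L + r - 1 - (L + r - 1 - y) = y by omega]
      exact hH y hy
    · exact (hG y).2 (by omega)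

end H474FL
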