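import Mathlib
import Pool.Agent.H474R3.FL.Fam

open Polynomial Module Finset

namespace H474FL

variable {K : Type*} [Field K]

lemma BB_mono {m n m' n' : ℕ} (hm : m ≤ m') (hn : n ≤ n') : BB K m n ≤ BB K m' n' := by
  intro F hF y
  refine ⟨?_, fun h => (hF y).2 (by omega)⟩
  have := (hF y).1
  rw [mem_degreeLT] at *
  exact this.trans_le (by exact_mod_cast hm)

lemma X_pow_mul_mem_BB {m n k : ℕ} {F : K[X][X]} (hF : F ∈ BB K m n) :
    X ^ k * F ∈ BB K m (n + k) := by
  intro y
  rw [coeff_X_pow_mul']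
  split_ifs with h
  · exact ⟨(hF _).1, fun h' => (hF _).2 (by omega)⟩
  · exact ⟨Submodule.zero_mem _, fun _ => rfl⟩

lemma eq_zero_of_sum {A κ : ℕ} {g0 g1 g2 : K[X][X]} (h0 : g0 ∈ BB K A κ) (h1 : g1 ∈ BB K A κ)
    (h2 : g2 ∈ BB K A κ) (h : g0 + X ^ κ * g1 + X ^ (2 * κ) * g2 = 0) :
    g0 = 0 ∧ g1 = 0 ∧ g2 = 0 := by
  have E : ∀ m, g0.coeff m + (if κ ≤ m then g1.coeff (m - κ) else 0) +
      (if 2 * κ ≤ m then g2.coeff (m - 2 * κ) else 0) = 0 := by
    intro m
    have := congrArg (fun P : K[X][X] => P.coeff m) h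
    simpa only [coeff_add, coeff_X_pow_mul', coeff_zero] using this
  refine ⟨?_, ?_, ?_⟩
  · ext1 y
    rw [coeff_zero]
    rcases Nat.lt_or_ge y κ with hy | hy
    · have := E y
      rw [if_neg (by omega), if_neg (by omega)] at this
      simpa using this
    · exact (h0 y).2 hy
  · ext1 y
    rw [coeff_zero]
    rcases Nat.lt_or_ge y κ with hy | hy
    · have := E (y + κ)
      rw [if_pos (by omega), if_neg (by omega), (h0 _).2 (by omega), Nat.add_sub_cancel] at this
      simpa using this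
    · exact (h1 y).2 hy
  · ext1 y
    rw [coeff_zero]
    rcases Nat.lt_or_ge y κ with hy | hy
    · have := E (y + 2 * κ)
      rw [if_pos (by omega), if_pos (by omega), (h0 _).2 (by omega), (h1 _).2 (by omega),
        Nat.add_sub_cancel] at this
      simpa using this
    · exact (h2 y).2 hy

lemma syz {A κ' r : ℕ} {W0 W1 W2 : K[X][X]} (h0 : W0 ∈ BB K A (κ' + r))
    (h1 : W1 ∈ BB K A (κ' + r)) (h2 : W2 ∈ BB K A (κ' + r))
    (h : W0 + X ^ κ' * W1 + X ^ (2 * κ') * W2 = 0) :
    (∃ γ ∈ BB K A r, W0 = X ^ κ' * γ) ∧ W2 ∈ BB K A r := by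
  have hdvd : X ^ κ' ∣ W0 := by
    have : W0 = X ^ κ' * (-W1 - X ^ κ' * W2) := by
      have e : (X : K[X][X]) ^ (2 * κ') = X ^ κ' * X ^ κ' := by rw [← pow_add]; congr 1; omega
      rw [e] at h
      linear_combination h
    exact ⟨_, this⟩
  obtain ⟨γ, hγ⟩ := hdvd
  have hγ' : ∀ y, γ.coeff y = W0.coeff (y + κ') := by
    intro y
    rw [hγ, coeff_X_pow_mul]
  have hγB : γ ∈ BB K A r := by
    intro y
    rw [hγ']
    exact ⟨(h0 _).1, fun h' => (h0 _).2 (by omega)⟩
  refine ⟨⟨γ, hγB, hγ⟩, ?_⟩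
  have hc : γ + W1 + X ^ κ' * W2 = 0 := by
    have e : (X : K[X][X]) ^ (2 * κ') = X ^ κ' * X ^ κ' := by rw [← pow_add]; congr 1; omega
    have : (X : K[X][X]) ^ κ' * (γ + W1 + X ^ κ' * W2) = 0 := by
      rw [hγ, e] at h
      linear_combination h
    exact (mul_eq_zero.1 this).resolve_left (pow_ne_zero _ X_ne_zero)
  intro y
  refine ⟨(h2 y).1, fun hy => ?_⟩
  have := congrArg (fun P : K[X][X] => P.coeff (y + κ')) hc
  simp only [coeff_add, coeff_X_pow_mul, coeff_zero] at this
  rw [(hγB _).2 (by omega), (h1 _).2 (by omega)] at this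
  simpa using this

/-- the summation map -/
noncomputable def Sg (K : Type*) [Field K] (A κ κ' : ℕ) :
    (Fin 3 → Fin κ → Fin A → K) →ₗ[K] K[X][X] :=
  Phi (fun i => if i = 0 then 1 else if i = 1 then X ^ κ' else X ^ (2 * κ')) A κ

lemma Sg_apply (A κ κ' : ℕ) (g : Fin 3 → Fin κ → Fin A → K) : Sg K A κ κ' g =
    polB K A κ (g 0) + X ^ κ' * polB K A κ (g 1) + X ^ (2 * κ') * polB K A κ (g 2) := by
  simp [Sg, Phi_apply]

theorem special_small (d₁ d₂ A κ : ℕ) (hκ : 2 * κ ≤ d₂) :
    ∃ f : Fin 3 → K[X][X], (∀ i, f i ∈ BB K (d₁ + 1) (d₂ + 1)) ∧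
      finrank K (LinearMap.ker (Phi f A κ)) = 0 := by
  refine ⟨fun i => if i = 0 then 1 else if i = 1 then X ^ κ else X ^ (2 * κ), ?_, ?_⟩
  · have hX : ∀ k, k ≤ d₂ → (X ^ k : K[X][X]) ∈ BB K (d₁ + 1) (d₂ + 1) := by
      intro k hk y
      rw [coeff_X_pow]
      split_ifs with h
      · refine ⟨?_, fun h' => by omega⟩
        rw [mem_degreeLT, degree_one]
        exact_mod_cast Nat.succ_pos d₁
      · exact ⟨Submodule.zero_mem _, fun _ => rfl⟩
    intro i
    fin_cases i
    · simpa using hX 0 (by omega)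
    · simpa using hX κ (by omega)
    · simpa using hX (2 * κ) (by omega)
  · have : LinearMap.ker (Sg K A κ κ) = ⊥ := by
      rw [LinearMap.ker_eq_bot']
      intro g hg
      rw [Sg_apply] at hg
      obtain ⟨h0, h1, h2⟩ := eq_zero_of_sum (polB_mem A κ (g 0)) (polB_mem A κ (g 1))
        (polB_mem A κ (g 2)) hg
      funext i
      fin_cases i
      · exact polB_inj h0
      · exact polB_inj h1
      · exact polB_inj h2
    change finrank K (LinearMap.ker (Sg K A κ κ)) = 0
    rw [this, finrank_bot]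

theorem special_big [Infinite K] (d₁ κ' r A : ℕ) (h1 : 1 ≤ d₁) (hr : 1 ≤ r) :
    ∃ f : Fin 3 → K[X][X], (∀ i, f i ∈ BB K (d₁ + 1) (2 * κ' + r + 1)) ∧
      finrank K (LinearMap.ker (Phi f A (κ' + r))) ≤ r * (A - 2 * d₁) - 3 * κ' * d₁ := by
  classical
  obtain ⟨a, α, c, hα, hc, hdeg, had, ha0, hNN⟩ :=
    core (K := K) d₁ (A - 2 * d₁) (3 * κ') h1 r
  set L := 3 * κ' with hL
  set κ := κ' + r with hκ
  have htop : (a r).coeff d₁ ≠ 0 := by
    rw [had, coeff_C_mul]
    refine mul_ne_zero hc ?_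
    have hPm : (∏ j, (X - C (α j)) : K[X]).Monic :=
      monic_prod_of_monic _ _ (fun j _ => monic_X_sub_C _)
    have hPd : (∏ j, (X - C (α j)) : K[X]).natDegree = d₁ := by
      rw [natDegree_prod_of_monic _ _ (fun j _ => monic_X_sub_C _)]
      simp
    have := hPm.coeff_natDegree
    rw [hPd] at this
    rw [this]
    exact one_ne_zero
  set h : K[X][X] := hh a r with hh'
  have hhB : h ∈ BB K (d₁ + 1) (r + 1) := by
    intro y
    rw [hh', hh_coeff]
    split_ifs with hy
    · refine ⟨?_, fun h' => by omega⟩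
      rw [mem_degreeLT]
      refine lt_of_le_of_lt (degree_le_natDegree) ?_
      exact_mod_cast Nat.lt_succ_of_le (hdeg y)
    · exact ⟨Submodule.zero_mem _, fun _ => rfl⟩
  -- projection onto the kernel of `Sg`
  let Dom := Fin 3 → Fin κ → Fin A → K
  let S := LinearMap.ker (Sg K A κ κ')
  obtain ⟨q0, hq0⟩ := LinearMap.exists_leftInverse_of_injective S.subtype
    (LinearMap.ker_eq_bot.2 (Submodule.subtype_injective S))
  let q : Dom →ₗ[K] Dom := S.subtype.comp q0
  have hqS : ∀ g, Sg K A κ κ' (q g) = 0 := fun g => (q0 g).2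
  have hqid : ∀ g, Sg K A κ κ' g = 0 → q g = g := by
    intro g hg
    have := congrArg (fun T : S →ₗ[K] S => T ⟨g, hg⟩) hq0
    simp only [LinearMap.comp_apply, Submodule.subtype_apply, LinearMap.id_apply] at this
    change ((q0 g : S) : Dom) = g
    rw [this]
  let Φ1 : Dom →ₗ[K] K[X][X] :=
    (LinearMap.mulLeft K (X ^ (2 * κ' + r) : K[X][X])).comp ((polB K A κ).comp (LinearMap.proj 0)) -
    (LinearMap.mulLeft K (C (X ^ d₁) : K[X][X])).comp ((polB K A κ).comp (LinearMap.proj 2))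
  have hΦ1 : ∀ g, Φ1 g = X ^ (2 * κ' + r) * polB K A κ (g 0) - C (X ^ d₁) * polB K A κ (g 2) := by
    intro g; rfl
  let F0 : Dom →ₗ[K] K[X][X] := (LinearMap.mulLeft K h).comp (Sg K A κ κ') + Φ1.comp q
  have hF0 : ∀ g, F0 g = h * Sg K A κ κ' g + Φ1 (q g) := by intro g; rfl
  let F1 : Dom →ₗ[K] K[X][X] := Φ1.comp (LinearMap.id - q)
  have hF1 : ∀ g, F1 g = Φ1 (g - q g) := by intro g; rfl
  -- kernel of F0
  have hker0 : finrank K (LinearMap.ker F0) ≤ r * (A - 2 * d₁) - L * d₁ := by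
    refine le_trans ?_ (hNN L le_rfl)
    let j : NN a r (A - 2 * d₁) L →ₗ[K] (ℕ → K[X]) :=
      LinearMap.pi (fun y => if y < L + r then
        (LinearMap.mulLeft K (X ^ d₁ : K[X])).comp ((LinearMap.proj (L + r - 1 - y)).comp
          (NN a r (A - 2 * d₁) L).subtype) else 0)
    have hj : ∀ ψ y, j ψ y = if y < L + r then X ^ d₁ * ψ.1 (L + r - 1 - y) else 0 := by
      intro ψ y
      simp only [j, LinearMap.pi_apply]
      split_ifs <;> rfl
    let T := LinearMap.ker F0
    have hT : ∀ g : T, ∃ γ1 ∈ BB K A r, ∃ γ2 ∈ BB K A r,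
        polB K A κ (q g 0) = X ^ κ' * γ1 ∧ polB K A κ (q g 2) = -γ2 ∧
        h * Sg K A κ κ' g + X ^ (L + r) * γ1 + C (X ^ d₁) * γ2 = 0 := by
      rintro ⟨g, hg⟩
      have hs := hqS g
      rw [Sg_apply] at hs
      obtain ⟨⟨γ1, hγ1, e1⟩, hγ2⟩ := syz (polB_mem A κ (q g 0)) (polB_mem A κ (q g 1))
        (polB_mem A κ (q g 2)) hs
      refine ⟨γ1, hγ1, -polB K A κ (q g 2), Submodule.neg_mem _ hγ2, e1, by simp, ?_⟩
      have h3 : F0 g = 0 := hg
      rw [hF0, hΦ1, e1] at h3
      have e : (X : K[X][X]) ^ (L + r) = X ^ (2 * κ' + r) * X ^ κ' := by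
        rw [← pow_add]; congr 1; omega
      rw [e]
      linear_combination h3
    have hSgB : ∀ g, Sg K A κ κ' g ∈ BB K A (L + r) := by
      intro g
      rw [Sg_apply]
      refine Submodule.add_mem _ (Submodule.add_mem _ ?_ ?_) ?_
      · exact BB_mono le_rfl (by omega) (polB_mem A κ (g 0))
      · exact BB_mono le_rfl (by omega) (X_pow_mul_mem_BB (polB_mem A κ (g 1)))
      · exact BB_mono le_rfl (by omega) (X_pow_mul_mem_BB (polB_mem A κ (g 2)))
    refine finrank_le_of_cover (A := T) ((cf K).comp ((Sg K A κ κ').comp T.subtype)) ?_ j ?_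
    · refine (injective_iff_map_eq_zero _).2 ?_
      intro g hg
      have hS0 : Sg K A κ κ' g = 0 := cf_inj hg
      obtain ⟨γ1, hγ1, γ2, hγ2, e1, e2, e3⟩ := hT g
      rw [hqid _ hS0] at e1 e2
      rw [hS0, mul_zero, zero_add] at e3
      have hγ20 : γ2 = 0 := by
        ext1 m
        rw [coeff_zero]
        rcases Nat.lt_or_ge m r with hm | hm
        · have := congrArg (fun P : K[X][X] => P.coeff m) e3
          simp only [coeff_add, coeff_X_pow_mul', coeff_C_mul, coeff_zero] at this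
          rw [if_neg (by omega), zero_add] at this
          exact (mul_eq_zero.1 this).resolve_left (pow_ne_zero _ X_ne_zero)
        · exact (hγ2 m).2 hm
      rw [hγ20, mul_zero, add_zero] at e3
      have hγ10 : γ1 = 0 := (mul_eq_zero.1 e3).resolve_left (pow_ne_zero _ X_ne_zero)
      rw [hγ10, mul_zero] at e1
      rw [hγ20, neg_zero] at e2
      rw [Sg_apply, e1, e2, zero_add, mul_zero, add_zero] at hS0
      have e4 := (mul_eq_zero.1 hS0).resolve_left (pow_ne_zero _ X_ne_zero)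
      apply Subtype.ext
      funext i
      fin_cases i
      · exact polB_inj e1
      · exact polB_inj e4
      · exact polB_inj e2
    · intro g
      obtain ⟨γ1, hγ1, γ2, hγ2, e1, e2, e3⟩ := hT g
      obtain ⟨ψ, hψ, hψ2⟩ := key_div hdeg htop ha0 (hSgB g) hγ1 hγ2 e3
      refine ⟨⟨ψ, hψ⟩, ?_⟩
      funext y
      rw [hj]
      exact (hψ2 y).symm
  -- semicontinuity
  have hsc := semicont_one (fun δ : K => F0 + δ • F1) (by
    intro v g
    have : (fun θ : K => g ((F0 + θ • F1) v)) = (fun θ : K => g (F0 v) + θ * g (F1 v)) := by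
      funext θ
      simp
    rw [this]
    exact Subring.add_mem _ (polyFun_const _) (Subring.mul_mem _ polyFun_id (polyFun_const _)))
  obtain ⟨δ, hδ⟩ := ((hsc.union (Set.finite_singleton (0 : K))).infinite_compl).nonempty
  simp only [Set.mem_compl_iff, Set.mem_union, not_or, Set.mem_singleton_iff] at hδ
  obtain ⟨hδ1, hδ0⟩ := hδ
  have hδ2 : finrank K (LinearMap.ker (F0 + δ • F1)) ≤ finrank K (LinearMap.ker F0) := by
    by_contra hcon
    apply hδ1
    change ¬ finrank K (LinearMap.ker (F0 + δ • F1)) ≤ finrank K (LinearMap.ker (F0 + (0 : K) • F1))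
    rw [zero_smul, add_zero]
    exact hcon
  refine ⟨fun i => if i = 0 then h + δ • X ^ (2 * κ' + r) else if i = 1 then X ^ κ' * h
    else X ^ (2 * κ') * h - δ • C (X ^ d₁), ?_, ?_⟩
  · have hY : (X ^ (2 * κ' + r) : K[X][X]) ∈ BB K (d₁ + 1) (2 * κ' + r + 1) := by
      intro y
      rw [coeff_X_pow]
      split_ifs with h'
      · refine ⟨?_, fun h'' => by omega⟩
        rw [mem_degreeLT, degree_one]
        exact_mod_cast Nat.succ_pos d₁
      · exact ⟨Submodule.zero_mem _, fun _ => rfl⟩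
    have hXd : (C (X ^ d₁) : K[X][X]) ∈ BB K (d₁ + 1) (2 * κ' + r + 1) := by
      intro y
      rw [coeff_C]
      split_ifs with h'
      · refine ⟨?_, fun h'' => by omega⟩
        rw [mem_degreeLT, degree_X_pow]
        exact_mod_cast Nat.lt_succ_self d₁
      · exact ⟨Submodule.zero_mem _, fun _ => rfl⟩
    intro i
    fin_cases i
    · simp only [Fin.zero_eta, if_true]
      exact Submodule.add_mem _ (BB_mono le_rfl (by omega) hhB) (Submodule.smul_mem _ _ hY)
    · simp only [Fin.mk_one, one_ne_zero, if_false, if_true]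
      exact BB_mono le_rfl (by omega) (X_pow_mul_mem_BB hhB)
    · simp only [Fin.reduceFinMk, Fin.reduceEq, if_false]
      exact Submodule.sub_mem _ (BB_mono le_rfl (by omega) (X_pow_mul_mem_BB hhB))
        (Submodule.smul_mem _ _ hXd)
  · refine le_trans ?_ (hδ2.trans hker0)
    let T := LinearMap.ker (Phi (fun i : Fin 3 => if i = 0 then h + δ • X ^ (2 * κ' + r) else
      if i = 1 then X ^ κ' * h else X ^ (2 * κ') * h - δ • C (X ^ d₁)) A κ)
    let T' := LinearMap.ker (F0 + δ • F1)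
    refine finrank_le_of_cover (A := T) (B := T')
      ((LinearMap.id + (δ - 1) • q).comp T.subtype) ?_ T'.subtype ?_
    · refine (injective_iff_map_eq_zero _).2 ?_
      intro g hg
      have hg1 : (g : Dom) + (δ - 1) • q g = 0 := hg
      have hg2 : q ((g : Dom) + (δ - 1) • q g) = 0 := by rw [hg1, map_zero]
      rw [map_add, map_smul, hqid (q g) (hqS g)] at hg2
      have hg3 : δ • q g = 0 := by
        have : q g + (δ - 1) • q g = δ • q g := by
          rw [sub_smul, one_smul]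
          abel
        rw [← this]
        exact hg2
      have hg4 : q g = 0 := (smul_eq_zero.1 hg3).resolve_left hδ0
      rw [hg4, smul_zero, add_zero] at hg1
      exact Subtype.ext hg1
    · rintro ⟨g, hg⟩
      refine ⟨⟨g + (δ - 1) • q g, ?_⟩, by
        simp only [Submodule.subtype_apply, LinearMap.comp_apply, LinearMap.add_apply,
          LinearMap.id_apply, LinearMap.smul_apply]⟩
      rw [LinearMap.mem_ker]
      have hg' : Phi (fun i : Fin 3 => if i = 0 then h + δ • X ^ (2 * κ' + r) else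
        if i = 1 then X ^ κ' * h else X ^ (2 * κ') * h - δ • C (X ^ d₁)) A κ g = 0 := hg
      rw [Phi_apply] at hg'
      simp only [if_true, one_ne_zero, if_false, Fin.reduceEq] at hg'
      have e1 : Sg K A κ κ' (g + (δ - 1) • q g) = Sg K A κ κ' g := by
        rw [map_add, map_smul, hqS, smul_zero, add_zero]
      have e2 : q (g + (δ - 1) • q g) = δ • q g := by
        rw [map_add, map_smul, hqid (q g) (hqS g), sub_smul, one_smul]
        abel
      have e3 : (g + (δ - 1) • q g) - δ • q g = g - q g := by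
        rw [sub_smul, one_smul]
        abel
      rw [LinearMap.add_apply, LinearMap.smul_apply, hF0, hF1, e1, e2, e3, map_smul, map_sub,
        smul_sub]
      have e4 : h * Sg K A κ κ' g + δ • Φ1 g = 0 := by
        rw [hΦ1, Sg_apply]
        generalize polB K A κ (g 0) = P0 at hg' ⊢
        generalize polB K A κ (g 1) = P1 at hg' ⊢
        generalize polB K A κ (g 2) = P2 at hg' ⊢
        have e5 : δ • ((X : K[X][X]) ^ (2 * κ' + r) * P0 - C (X ^ d₁) * P2) =
            (δ • (X : K[X][X]) ^ (2 * κ' + r)) * P0 - (δ • (C (X ^ d₁) : K[X][X])) * P2 := by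
          rw [smul_sub, smul_mul_assoc, smul_mul_assoc]
        rw [e5]
        generalize δ • (X : K[X][X]) ^ (2 * κ' + r) = Y1 at hg' ⊢
        generalize δ • (C (X ^ d₁) : K[X][X]) = Y2 at hg' ⊢
        linear_combination hg'
      calc h * Sg K A κ κ' g + δ • Φ1 (q g) + (δ • Φ1 g - δ • Φ1 (q g))
          = h * Sg K A κ κ' g + δ • Φ1 g := by abel
        _ = 0 := e4

end H474FL
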