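import Mathlib
import Pool.Agent.H474R3.FL.Special

open Polynomial Module Finset

namespace H474FL

variable {K : Type*} [Field K]

/-- polynomial functions of several variables -/
noncomputable def mvFun (σ K : Type*) [Field K] : Subring ((σ → K) → K) :=
  (RingHom.pi (fun c : σ → K => (MvPolynomial.eval c : MvPolynomial σ K →+* K))).range

lemma mem_mvFun {σ : Type*} {φ : (σ → K) → K} :
    φ ∈ mvFun σ K ↔ ∃ p : MvPolynomial σ K, ∀ c, MvPolynomial.eval c p = φ c := by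
  unfold mvFun
  rw [RingHom.mem_range]
  constructor
  · rintro ⟨p, hp⟩
    exact ⟨p, fun c => by rw [← hp]; rfl⟩
  · rintro ⟨p, hp⟩
    exact ⟨p, by funext c; exact hp c⟩

/-- polynomially varying vectors -/
def PPm {σ W : Type*} [AddCommGroup W] [Module K W] (φ : (σ → K) → W) : Prop :=
  ∀ g : W →ₗ[K] K, (fun c => g (φ c)) ∈ mvFun σ K

lemma PPm.coord {σ W : Type*} [AddCommGroup W] [Module K W] (s : σ) (w : W) :
    PPm (K := K) (fun c : σ → K => c s • w) := by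
  intro g
  refine mem_mvFun.2 ⟨MvPolynomial.X s * MvPolynomial.C (g w), fun c => ?_⟩
  simp

lemma PPm.add {σ W : Type*} [AddCommGroup W] [Module K W] {φ φ' : (σ → K) → W}
    (h : PPm (K := K) φ) (h' : PPm (K := K) φ') : PPm (K := K) (fun c => φ c + φ' c) := by
  intro g
  have : (fun c => g (φ c + φ' c)) = (fun c => g (φ c)) + (fun c => g (φ' c)) := by
    funext c; simp
  rw [this]
  exact Subring.add_mem _ (h g) (h' g)

lemma PPm.sum {σ W ι : Type*} [AddCommGroup W] [Module K W] (s : Finset ι)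
    {φ : ι → (σ → K) → W} (h : ∀ i ∈ s, PPm (K := K) (φ i)) :
    PPm (K := K) (fun c => ∑ i ∈ s, φ i c) := by
  intro g
  have : (fun c => g (∑ i ∈ s, φ i c)) = ∑ i ∈ s, (fun c => g (φ i c)) := by
    funext c; simp
  rw [this]
  exact Subring.sum_mem _ (fun i hi => h i hi g)

lemma PPm.lin {σ W W' : Type*} [AddCommGroup W] [Module K W] [AddCommGroup W'] [Module K W']
    {φ : (σ → K) → W} (h : PPm (K := K) φ) (T : W →ₗ[K] W') :
    PPm (K := K) (fun c => T (φ c)) := fun g => h (g.comp T)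

lemma gen_of {σ V W : Type*} [AddCommGroup V] [Module K V] [FiniteDimensional K V]
    [AddCommGroup W] [Module K W] (T : (σ → K) → V →ₗ[K] W)
    (hT : ∀ v, PPm (K := K) (fun c => T c v)) (c0 : σ → K) :
    ∃ P : MvPolynomial σ K, P ≠ 0 ∧ ∀ c, MvPolynomial.eval c P ≠ 0 →
      finrank K (LinearMap.ker (T c)) ≤ finrank K (LinearMap.ker (T c0)) := by
  obtain ⟨p, hp, hp0, h⟩ := semicont (mvFun σ K) T hT c0
  obtain ⟨P, hP⟩ := mem_mvFun.1 hp
  refine ⟨P, ?_, fun c hc => h c (by rwa [← hP])⟩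
  rintro rfl
  exact hp0 (by rw [← hP]; simp)

/-- index type of the coefficients of a triple of forms of bidegree `(d₁,d₂)` -/
abbrev Idx (d₁ d₂ : ℕ) := Fin 3 × Fin (d₁ + 1) × Fin (d₂ + 1)

/-- the dehomogenised triple with coefficients `c` -/
noncomputable def ff {d₁ d₂ : ℕ} (c : Idx d₁ d₂ → K) (i : Fin 3) : K[X][X] :=
  ∑ x : Fin (d₁ + 1), ∑ q : Fin (d₂ + 1), c (i, x, q) • monomial (q : ℕ) (monomial (x : ℕ) (1 : K))

lemma ff_PPm {d₁ d₂ : ℕ} (i : Fin 3) : PPm (K := K) (fun c : Idx d₁ d₂ → K => ff c i) :=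
  PPm.sum _ fun x _ => PPm.sum _ fun q _ => PPm.coord (i, x, q) _

lemma ff_coeff {d₁ d₂ : ℕ} (c : Idx d₁ d₂ → K) (i : Fin 3) (y z : ℕ) :
    ((ff c i).coeff y).coeff z =
      if h : z < d₁ + 1 ∧ y < d₂ + 1 then c (i, ⟨z, h.1⟩, ⟨y, h.2⟩) else 0 := by
  classical
  have key : ((ff c i).coeff y).coeff z =
      ∑ x : Fin (d₁ + 1), ∑ q : Fin (d₂ + 1),
        if (q : ℕ) = y ∧ (x : ℕ) = z then c (i, x, q) else 0 := by
    simp only [ff, finsetSum_coeff, coeff_smul, coeff_monomial, smul_eq_mul]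
    refine Finset.sum_congr rfl fun x _ => Finset.sum_congr rfl fun q _ => ?_
    by_cases h1 : (q : ℕ) = y
    · by_cases h2 : (x : ℕ) = z
      · simp [h1, h2]
      · simp [h1, h2, coeff_monomial]
    · simp [h1]
  rw [key]
  split_ifs with h
  · rw [Finset.sum_eq_single ⟨z, h.1⟩, Finset.sum_eq_single ⟨y, h.2⟩]
    · simp
    · intro q _ hq
      rw [if_neg]
      rintro ⟨h1, _⟩
      exact hq (Fin.ext h1)
    · simp
    · intro x _ hx
      refine Finset.sum_eq_zero fun q _ => ?_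
      rw [if_neg]
      rintro ⟨_, h1⟩
      exact hx (Fin.ext h1)
    · simp
  · refine Finset.sum_eq_zero fun x _ => Finset.sum_eq_zero fun q _ => ?_
    rw [if_neg]
    rintro ⟨h1, h2⟩
    exact h ⟨by have := x.2; omega, by have := q.2; omega⟩

lemma mem_BB' {m n : ℕ} {F : K[X][X]} :
    F ∈ BB K m n ↔ ∀ y z, (m ≤ z ∨ n ≤ y) → (F.coeff y).coeff z = 0 := by
  constructor
  · intro h y z hyz
    rcases hyz with h1 | h1
    · have := (h y).1
      rw [mem_degreeLT, degree_lt_iff_coeff_zero] at this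
      exact this z h1
    · rw [(h y).2 h1, coeff_zero]
  · intro h y
    refine ⟨?_, fun h1 => ?_⟩
    · rw [mem_degreeLT, degree_lt_iff_coeff_zero]
      intro z hz
      exact h y z (Or.inl hz)
    · ext z
      rw [h y z (Or.inr h1), coeff_zero]

lemma ff_mem {d₁ d₂ : ℕ} (c : Idx d₁ d₂ → K) (i : Fin 3) : ff c i ∈ BB K (d₁ + 1) (d₂ + 1) := by
  rw [mem_BB']
  intro y z h
  rw [ff_coeff, dif_neg (by omega)]

lemma ff_surj {d₁ d₂ : ℕ} (f : Fin 3 → K[X][X]) (hf : ∀ i, f i ∈ BB K (d₁ + 1) (d₂ + 1)) :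
    ∃ c : Idx d₁ d₂ → K, ff c = f := by
  refine ⟨fun p => ((f p.1).coeff (p.2.2 : ℕ)).coeff (p.2.1 : ℕ), ?_⟩
  funext i
  ext y z
  rw [ff_coeff]
  split_ifs with h
  · rfl
  · exact (mem_BB'.1 (hf i) y z (by omega)).symm

lemma Phi_PPm {d₁ d₂ : ℕ} (A κ : ℕ) (v : Fin 3 → Fin κ → Fin A → K) :
    PPm (K := K) (fun c : Idx d₁ d₂ → K => Phi (ff c) A κ v) := by
  have : (fun c : Idx d₁ d₂ → K => Phi (ff c) A κ v) =
      fun c => ∑ i, (LinearMap.mulRight K (polB K A κ (v i))) (ff c i) := by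
    funext c
    simp [Phi]
  rw [this]
  exact PPm.sum _ fun i _ => (ff_PPm i).lin _

lemma gen_Phi {d₁ d₂ : ℕ} (A κ b : ℕ) (h : ∃ f : Fin 3 → K[X][X],
    (∀ i, f i ∈ BB K (d₁ + 1) (d₂ + 1)) ∧ finrank K (LinearMap.ker (Phi f A κ)) ≤ b) :
    ∃ P : MvPolynomial (Idx d₁ d₂) K, P ≠ 0 ∧ ∀ c, MvPolynomial.eval c P ≠ 0 →
      finrank K (LinearMap.ker (Phi (ff c) A κ)) ≤ b := by
  obtain ⟨f, hf, hb⟩ := h
  obtain ⟨c0, rfl⟩ := ff_surj f hf
  obtain ⟨P, hP, h⟩ := gen_of (fun c : Idx d₁ d₂ → K => Phi (ff c) A κ)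
    (fun v => Phi_PPm A κ v) c0
  exact ⟨P, hP, fun c hc => (h c hc).trans hb⟩

lemma prod_gen {σ ι : Type*} (s : Finset ι) (Q : ι → (σ → K) → Prop)
    (h : ∀ i ∈ s, ∃ P : MvPolynomial σ K, P ≠ 0 ∧ ∀ c, MvPolynomial.eval c P ≠ 0 → Q i c) :
    ∃ P : MvPolynomial σ K, P ≠ 0 ∧ ∀ c, MvPolynomial.eval c P ≠ 0 → ∀ i ∈ s, Q i c := by
  classical
  choose! P hP hQ using h
  refine ⟨∏ i ∈ s, P i, Finset.prod_ne_zero_iff.2 hP, ?_⟩
  intro c hc i hi
  rw [map_prod] at hc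
  exact hQ i hi c (Finset.prod_ne_zero_iff.1 hc i hi)

/-! ### Ranges -/

lemma mul_mem_BB {m n k l : ℕ} {F G : K[X][X]} (hF : F ∈ BB K (k + 1) (l + 1))
    (hG : G ∈ BB K m n) : F * G ∈ BB K (m + k) (n + l) := by
  intro y
  have hFn : F.natDegree ≤ l := by
    rw [natDegree_le_iff_coeff_eq_zero]
    intro N hN
    exact (hF N).2 (by omega)
  refine ⟨?_, fun hy => ?_⟩
  · rw [coeff_mul]
    refine Submodule.sum_mem _ fun p _ => ?_
    refine mul_mem_degreeLT (k := k) ?_ ?_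
    · have := (hF p.1).1
      rw [mem_degreeLT, degree_lt_iff_coeff_zero] at this
      rw [natDegree_le_iff_coeff_eq_zero]
      intro N hN
      exact this N (by omega)
    · rw [Nat.add_sub_cancel]
      exact (hG p.2).1
  · rw [coeff_mul]
    refine Finset.sum_eq_zero fun p hp => ?_
    rw [Finset.HasAntidiagonal.mem_antidiagonal] at hp
    rcases Nat.lt_or_ge p.1 (l + 1) with h1 | h1
    · rw [(hG p.2).2 (by omega), mul_zero]
    · rw [(hF p.1).2 h1, zero_mul]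

lemma mem_range_Phi {f : Fin 3 → K[X][X]} {A κ : ℕ} {F : K[X][X]} :
    F ∈ LinearMap.range (Phi f A κ) ↔ ∃ g : Fin 3 → K[X][X], (∀ i, g i ∈ BB K A κ) ∧
      F = f 0 * g 0 + f 1 * g 1 + f 2 * g 2 := by
  constructor
  · rintro ⟨g, rfl⟩
    exact ⟨fun i => polB K A κ (g i), fun i => polB_mem A κ (g i), Phi_apply f A κ g⟩
  · rintro ⟨g, hg, rfl⟩
    choose w hw using fun i => polB_surj (hg i)
    refine ⟨w, ?_⟩
    rw [Phi_apply, hw, hw, hw]

lemma range_Phi_le {d₁ d₂ : ℕ} {f : Fin 3 → K[X][X]} (hf : ∀ i, f i ∈ BB K (d₁ + 1) (d₂ + 1))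
    (A κ : ℕ) : LinearMap.range (Phi f A κ) ≤ BB K (A + d₁) (κ + d₂) := by
  intro F hF
  obtain ⟨g, hg, rfl⟩ := mem_range_Phi.1 hF
  exact Submodule.add_mem _ (Submodule.add_mem _ (mul_mem_BB (hf 0) (hg 0))
    (mul_mem_BB (hf 1) (hg 1))) (mul_mem_BB (hf 2) (hg 2))

lemma rank_nullity (f : Fin 3 → K[X][X]) (A κ : ℕ) :
    finrank K (LinearMap.range (Phi f A κ)) + finrank K (LinearMap.ker (Phi f A κ)) =
      3 * (κ * A) := by
  rw [LinearMap.finrank_range_add_finrank_ker, finrank_dom]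

lemma full_of {d₁ d₂ : ℕ} {f : Fin 3 → K[X][X]} (hf : ∀ i, f i ∈ BB K (d₁ + 1) (d₂ + 1))
    {A κ : ℕ} (h1 : finrank K (LinearMap.ker (Phi f A κ)) ≤ 3 * (κ * A) - (A + d₁) * (κ + d₂))
    (h2 : (A + d₁) * (κ + d₂) ≤ 3 * (κ * A)) :
    LinearMap.range (Phi f A κ) = BB K (A + d₁) (κ + d₂) := by
  refine Submodule.eq_of_le_of_finrank_le (range_Phi_le hf A κ) ?_
  rw [finrank_BB, mul_comm]
  have := rank_nullity f A κ
  omega

lemma ker_of_full {d₁ d₂ : ℕ} {f : Fin 3 → K[X][X]} {A κ : ℕ}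
    (h : LinearMap.range (Phi f A κ) = BB K (A + d₁) (κ + d₂)) :
    finrank K (LinearMap.ker (Phi f A κ)) = 3 * (κ * A) - (A + d₁) * (κ + d₂) := by
  have := rank_nullity f A κ
  rw [h, finrank_BB, mul_comm] at this
  omega

lemma X_pow_BB_step {m n : ℕ} (hn : 1 ≤ n) {F : K[X][X]} (hF : F ∈ BB K m (n + 1)) :
    ∃ F0 ∈ BB K m n, ∃ F1 ∈ BB K m n, F = F0 + X * F1 := by
  refine ⟨monomial 0 (F.coeff 0), ?_, F.divX, ?_, ?_⟩
  · intro y
    rw [coeff_monomial]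
    split_ifs with h
    · exact ⟨(hF 0).1, fun h' => by omega⟩
    · exact ⟨Submodule.zero_mem _, fun _ => rfl⟩
  · intro y
    rw [coeff_divX]
    exact ⟨(hF _).1, fun h' => (hF _).2 (by omega)⟩
  · conv_lhs => rw [← divX_mul_X_add F]
    rw [monomial_zero_left]
    ring

lemma full_step_κ {d₁ d₂ : ℕ} {f : Fin 3 → K[X][X]} (hf : ∀ i, f i ∈ BB K (d₁ + 1) (d₂ + 1))
    {A κ : ℕ} (hκ : 1 ≤ κ + d₂)
    (h : LinearMap.range (Phi f A κ) = BB K (A + d₁) (κ + d₂)) :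
    LinearMap.range (Phi f A (κ + 1)) = BB K (A + d₁) (κ + 1 + d₂) := by
  apply le_antisymm (range_Phi_le hf A (κ + 1))
  intro F hF
  rw [show κ + 1 + d₂ = κ + d₂ + 1 by ring] at hF
  obtain ⟨F0, h0, F1, h1, rfl⟩ := X_pow_BB_step hκ hF
  rw [← h] at h0 h1
  obtain ⟨g0, hg0, rfl⟩ := mem_range_Phi.1 h0
  obtain ⟨g1, hg1, rfl⟩ := mem_range_Phi.1 h1
  rw [mem_range_Phi]
  refine ⟨fun i => g0 i + X ^ 1 * g1 i, fun i => Submodule.add_mem _
    (BB_mono le_rfl (by omega) (hg0 i)) (X_pow_mul_mem_BB (hg1 i)), ?_⟩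
  simp only [pow_one]
  ring

lemma CX_BB_step {m n : ℕ} (hm : 1 ≤ m) {F : K[X][X]} (hF : F ∈ BB K (m + 1) n) :
    ∃ F0 ∈ BB K m n, ∃ F1 ∈ BB K m n, F = F0 + C X * F1 := by
  refine ⟨fc K n (fun y => C ((F.coeff y).coeff 0)), ?_, fc K n (fun y => (F.coeff y).divX), ?_, ?_⟩
  · rw [mem_BB']
    intro y z h
    rw [fc_coeff]
    split_ifs with h'
    · rw [coeff_C, if_neg (by omega)]
    · rw [coeff_zero]
  · rw [mem_BB']
    intro y z h
    rw [fc_coeff]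
    split_ifs with h'
    · rw [coeff_divX]
      exact mem_BB'.1 hF _ _ (by omega)
    · rw [coeff_zero]
  · ext1 y
    rw [coeff_add, coeff_C_mul, fc_coeff, fc_coeff]
    split_ifs with h
    · conv_lhs => rw [← divX_mul_X_add (F.coeff y)]
      ring
    · rw [(hF y).2 (by omega)]
      simp

lemma C_mul_mem_BB {m n : ℕ} {F : K[X][X]} (hF : F ∈ BB K m n) : C X * F ∈ BB K (m + 1) n := by
  rw [mem_BB']
  intro y z h
  rw [coeff_C_mul]
  rcases z with _ | z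
  · simp
  · rw [coeff_X_mul]
    exact mem_BB'.1 hF _ _ (by omega)

lemma full_step_A {d₁ d₂ : ℕ} {f : Fin 3 → K[X][X]} (hf : ∀ i, f i ∈ BB K (d₁ + 1) (d₂ + 1))
    {A κ : ℕ} (hA : 1 ≤ A + d₁)
    (h : LinearMap.range (Phi f A κ) = BB K (A + d₁) (κ + d₂)) :
    LinearMap.range (Phi f (A + 1) κ) = BB K (A + 1 + d₁) (κ + d₂) := by
  apply le_antisymm (range_Phi_le hf (A + 1) κ)
  intro F hF
  rw [show A + 1 + d₁ = A + d₁ + 1 by ring] at hF
  obtain ⟨F0, h0, F1, h1, rfl⟩ := CX_BB_step hA hF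
  rw [← h] at h0 h1
  obtain ⟨g0, hg0, rfl⟩ := mem_range_Phi.1 h0
  obtain ⟨g1, hg1, rfl⟩ := mem_range_Phi.1 h1
  rw [mem_range_Phi]
  refine ⟨fun i => g0 i + C X * g1 i, fun i => Submodule.add_mem _
    (BB_mono (by omega) le_rfl (hg0 i)) (C_mul_mem_BB (hg1 i)), ?_⟩
  ring

lemma full_prop {d₁ d₂ : ℕ} (hd : 1 ≤ d₁) (hd' : 1 ≤ d₂) {f : Fin 3 → K[X][X]}
    (hf : ∀ i, f i ∈ BB K (d₁ + 1) (d₂ + 1)) {A κ : ℕ}
    (h : LinearMap.range (Phi f A κ) = BB K (A + d₁) (κ + d₂)) (k l : ℕ) :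
    LinearMap.range (Phi f (A + k) (κ + l)) = BB K (A + k + d₁) (κ + l + d₂) := by
  have h1 : ∀ k, LinearMap.range (Phi f (A + k) κ) = BB K (A + k + d₁) (κ + d₂) := by
    intro k
    induction k with
    | zero => exact h
    | succ k ih =>
      have := full_step_A hf (by omega) ih
      exact this
  induction l with
  | zero => exact h1 k
  | succ l ih => exact full_step_κ hf (by omega) ih

end H474FL
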