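import Mathlib
import Pool.Agent.H474R3.FL.Gen1

open Polynomial Module Finset

namespace H474FL

variable {K : Type*} [Field K]

/-! ### small `κ` -/

/-- setting the inner variable to zero -/
noncomputable def ev0 (K : Type*) [Field K] : K[X][X] →ₐ[K] K[X][X] :=
  Polynomial.mapAlgHom (Polynomial.aeval (0 : K[X]))

lemma ev0_coeff (F : K[X][X]) (y : ℕ) : (ev0 K F).coeff y = C ((F.coeff y).coeff 0) := by
  rw [ev0, coe_mapAlgHom, coeff_map]
  exact (coeff_zero_eq_aeval_zero' (F.coeff y)).symm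

lemma ev0_mem {m n : ℕ} {F : K[X][X]} (hF : F ∈ BB K m n) : ev0 K F ∈ BB K 1 n := by
  rw [mem_BB']
  intro y z h
  rw [ev0_coeff, coeff_C]
  split_ifs with hz
  · exact mem_BB'.1 hF _ _ (by omega)
  · rfl

lemma Phi_inj_iff {f : Fin 3 → K[X][X]} {A κ : ℕ} :
    finrank K (LinearMap.ker (Phi f A κ)) = 0 ↔
      ∀ g : Fin 3 → K[X][X], (∀ i, g i ∈ BB K A κ) →
        f 0 * g 0 + f 1 * g 1 + f 2 * g 2 = 0 → ∀ i, g i = 0 := by
  rw [Submodule.finrank_eq_zero, LinearMap.ker_eq_bot']
  constructor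
  · intro h g hg h0
    choose w hw using fun i => polB_surj (hg i)
    have : Phi f A κ w = 0 := by
      rw [Phi_apply, hw, hw, hw]
      exact h0
    have hw0 := h w this
    intro i
    rw [← hw i, hw0]
    simp
  · intro h w hw
    rw [Phi_apply] at hw
    have := h (fun i => polB K A κ (w i)) (fun i => polB_mem A κ (w i)) hw
    funext i
    exact polB_inj (this i)

lemma small_inj {f : Fin 3 → K[X][X]} {κ : ℕ}
    (h : finrank K (LinearMap.ker (Phi (fun i => ev0 K (f i)) 1 κ)) = 0) (A : ℕ) :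
    finrank K (LinearMap.ker (Phi f A κ)) = 0 := by
  rw [Phi_inj_iff] at h ⊢
  induction A with
  | zero =>
    intro g hg _ i
    ext1 y
    have := (hg i y).1
    rw [mem_degreeLT] at this
    simpa using this
  | succ A ih =>
    intro g hg h0
    have h1 := h (fun i => ev0 K (g i)) (fun i => ev0_mem (hg i)) (by
      simp only [← map_mul, ← map_add]
      rw [h0, map_zero])
    have h2 : ∀ i y, ((g i).coeff y).coeff 0 = 0 := by
      intro i y
      have := congrArg (fun P : K[X][X] => P.coeff y) (h1 i)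
      simp only [ev0_coeff, coeff_zero] at this
      simpa using this
    let g' : Fin 3 → K[X][X] := fun i => fc K κ (fun y => ((g i).coeff y).divX)
    have hg' : ∀ i, g' i ∈ BB K A κ := by
      intro i
      rw [mem_BB']
      intro y z h
      simp only [g', fc_coeff]
      split_ifs with h'
      · rw [coeff_divX]
        exact mem_BB'.1 (hg i) _ _ (by omega)
      · rw [coeff_zero]
    have hgg : ∀ i, g i = C X * g' i := by
      intro i
      ext1 y
      simp only [g', coeff_C_mul, fc_coeff]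
      split_ifs with h'
      · conv_lhs => rw [← divX_mul_X_add ((g i).coeff y), h2]
        rw [C_0]
        ring
      · rw [(hg i y).2 (by omega), mul_zero]
    have h3 : (C X : K[X][X]) * (f 0 * g' 0 + f 1 * g' 1 + f 2 * g' 2) = 0 := by
      rw [hgg 0, hgg 1, hgg 2] at h0
      linear_combination h0
    have hCX : (C X : K[X][X]) ≠ 0 := by
      rw [Ne, C_eq_zero]
      exact X_ne_zero
    have h4 := ih g' hg' ((mul_eq_zero.1 h3).resolve_left hCX)
    intro i
    rw [hgg, h4, mul_zero]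

/-- monomial triple -/
noncomputable def sp (K : Type*) [Field K] (κ : ℕ) (i : Fin 3) : K[X][X] :=
  if i = 0 then 1 else if i = 1 then X ^ κ else X ^ (2 * κ)

lemma sp_mem {d₁ d₂ κ : ℕ} (hκ : 2 * κ ≤ d₂) (i : Fin 3) : sp K κ i ∈ BB K (d₁ + 1) (d₂ + 1) := by
  have hX : ∀ k, k ≤ d₂ → (X ^ k : K[X][X]) ∈ BB K (d₁ + 1) (d₂ + 1) := by
    intro k hk y
    rw [coeff_X_pow]
    split_ifs with h
    · refine ⟨?_, fun h' => by omega⟩
      rw [mem_degreeLT, degree_one]
      exact_mod_cast Nat.succ_pos d₁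
    · exact ⟨Submodule.zero_mem _, fun _ => rfl⟩
  unfold sp
  fin_cases i
  · simpa using hX 0 (by omega)
  · simpa using hX κ (by omega)
  · simpa using hX (2 * κ) (by omega)

lemma sp_ker (A κ : ℕ) : finrank K (LinearMap.ker (Phi (fun i => ev0 K (sp K κ i)) A κ)) = 0 := by
  have he : (fun i => ev0 K (sp K κ i)) = sp K κ := by
    funext i
    ext1 y
    rw [ev0_coeff]
    unfold sp
    fin_cases i
    · rcases y with _ | y
      · simp
      · simp [coeff_one]
    · by_cases hy : y = κ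
      · simp [coeff_X_pow, hy]
      · simp [coeff_X_pow, hy]
    · by_cases hy : y = 2 * κ
      · simp [coeff_X_pow, hy]
      · simp [coeff_X_pow, hy]
  rw [he, Phi_inj_iff]
  intro g hg h
  have h' : g 0 + X ^ κ * g 1 + X ^ (2 * κ) * g 2 = 0 := by
    simpa [sp] using h
  obtain ⟨h0, h1, h2⟩ := eq_zero_of_sum (hg 0) (hg 1) (hg 2) h'
  intro i
  fin_cases i
  · exact h0
  · exact h1
  · exact h2

lemma gen_small {d₁ d₂ κ : ℕ} (hκ : 2 * κ ≤ d₂) :
    ∃ P : MvPolynomial (Idx d₁ d₂) K, P ≠ 0 ∧ ∀ c, MvPolynomial.eval c P ≠ 0 →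
      ∀ A, finrank K (LinearMap.ker (Phi (ff c) A κ)) = 0 := by
  obtain ⟨c0, hc0⟩ := ff_surj (d₁ := d₁) (d₂ := d₂) (sp K κ) (fun i => sp_mem hκ i)
  obtain ⟨P, hP, h⟩ := gen_of (fun c : Idx d₁ d₂ → K => Phi (fun i => ev0 K (ff c i)) 1 κ)
    (fun v => by
      have : (fun c : Idx d₁ d₂ → K => Phi (fun i => ev0 K (ff c i)) 1 κ v) =
          fun c => ∑ i, ((LinearMap.mulRight K (polB K 1 κ (v i))).comp (ev0 K).toLinearMap)
            (ff c i) := by
        funext c
        simp [Phi]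
      rw [this]
      exact PPm.sum _ fun i _ => (ff_PPm i).lin _) c0
  refine ⟨P, hP, fun c hc A => small_inj ?_ A⟩
  have := h c hc
  rw [hc0, sp_ker] at this
  omega

theorem genA [Infinite K] (d₁ d₂ : ℕ) (h1 : 1 ≤ d₁) (h2 : 1 ≤ d₂) :
    ∃ P : MvPolynomial (Idx d₁ d₂) K, P ≠ 0 ∧ ∀ c, MvPolynomial.eval c P ≠ 0 →
      ∀ κ ∈ range (d₂ + 1), ∀ A, finrank K (LinearMap.ker (Phi (ff c) A κ)) ≤
        3 * (κ * A) - (A + d₁) * (κ + d₂) := by
  refine prod_gen (range (d₂ + 1)) (fun κ c => ∀ A, finrank K (LinearMap.ker (Phi (ff c) A κ)) ≤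
        3 * (κ * A) - (A + d₁) * (κ + d₂)) ?_
  intro κ hκ
  have hκ' : κ ≤ d₂ := by
    have := Finset.mem_range.1 hκ
    omega
  rcases Nat.lt_or_ge d₂ (2 * κ) with hc | hc
  · obtain ⟨k, r, hr, hk1, hk2⟩ : ∃ k r, 1 ≤ r ∧ κ = k + r ∧ d₂ = 2 * k + r :=
      ⟨d₂ - κ, 2 * κ - d₂, by omega, by omega, by omega⟩
    subst hk1 hk2
    set Amax := 2 * d₁ + 3 * k * d₁ with hAmax
    obtain ⟨P, hP, h⟩ := prod_gen (σ := Idx d₁ (2 * k + r)) (range (Amax + 1))
      (fun A c => finrank K (LinearMap.ker (Phi (ff c) A (k + r))) ≤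
        3 * ((k + r) * A) - (A + d₁) * (k + r + (2 * k + r))) (by
        intro A _
        apply gen_Phi
        obtain ⟨f, hf, hb⟩ := special_big (K := K) d₁ k r A h1 hr
        refine ⟨f, hf, hb.trans ?_⟩
        rcases Nat.lt_or_ge A (2 * d₁) with hA | hA
        · have : A - 2 * d₁ = 0 := by omega
          rw [this]
          simp
        · obtain ⟨b, rfl⟩ : ∃ b, A = 2 * d₁ + b := ⟨A - 2 * d₁, by omega⟩
          rw [Nat.add_sub_cancel_left]
          have : 3 * ((k + r) * (2 * d₁ + b)) + 3 * k * d₁ =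
              (2 * d₁ + b + d₁) * (k + r + (2 * k + r)) + r * b := by ring
          omega)
    refine ⟨P, hP, fun c hc A => ?_⟩
    have hb := h c hc
    rcases Nat.lt_or_ge A (Amax + 1) with hA | hA
    · exact hb A (Finset.mem_range.2 hA)
    · have hfull := full_of (fun i => ff_mem c i) (hb Amax (Finset.mem_range.2 (by omega))) (by
        have : 3 * ((k + r) * (2 * d₁ + 3 * k * d₁)) + 3 * k * d₁ =
              (2 * d₁ + 3 * k * d₁ + d₁) * (k + r + (2 * k + r)) + r * (3 * k * d₁) := by ring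
        have h4 : 3 * k * d₁ ≤ r * (3 * k * d₁) := Nat.le_mul_of_pos_left _ hr
        rw [hAmax]
        omega)
      have hp := full_prop h1 h2 (fun i => ff_mem c i) hfull (A - Amax) 0
      rw [show Amax + (A - Amax) = A by omega, add_zero] at hp
      exact (ker_of_full hp).le
  · obtain ⟨P, hP, h⟩ := gen_small (K := K) (d₁ := d₁) hc
    exact ⟨P, hP, fun c hc A => by rw [h c hc A]; exact Nat.zero_le _⟩

/-! ### Swapping the two variables -/

lemma swap_coeff (F : K[X][X]) (y x : ℕ) :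
    ((Polynomial.Bivariate.swap F).coeff y).coeff x = (F.coeff x).coeff y := by
  induction F using Polynomial.induction_on' with
  | add p q hp hq => simp only [map_add, coeff_add, hp, hq]
  | monomial n f =>
    induction f using Polynomial.induction_on' with
    | add p q hp hq => simp only [map_add, coeff_add, hp, hq]
    | monomial m r =>
      rw [Polynomial.Bivariate.swap_monomial_monomial]
      simp only [coeff_monomial]
      by_cases h1 : m = y <;> by_cases h2 : n = x <;> simp [h1, h2, coeff_monomial]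

lemma swap_mem {m n : ℕ} {F : K[X][X]} (hF : F ∈ BB K m n) :
    Polynomial.Bivariate.swap F ∈ BB K n m := by
  rw [mem_BB'] at *
  intro y z h
  rw [swap_coeff]
  exact hF z y (by omega)

lemma swap_ker (f : Fin 3 → K[X][X]) (A κ : ℕ) :
    finrank K (LinearMap.ker (Phi f A κ)) ≤
      finrank K (LinearMap.ker (Phi (fun i => Polynomial.Bivariate.swap (f i)) κ A)) := by
  let T := LinearMap.ker (Phi f A κ)
  let T' := LinearMap.ker (Phi (fun i => Polynomial.Bivariate.swap (f i)) κ A)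
  let sw : K[X][X] →ₗ[K] K[X][X] :=
    ((Polynomial.Bivariate.swap (R := K)).toLinearEquiv.toLinearMap)
  have hsw : ∀ F, sw F = Polynomial.Bivariate.swap F := fun F => rfl
  refine finrank_le_of_cover (A := T) (B := T') (C := Fin 3 → K[X][X])
    ((LinearMap.pi (fun i => sw.comp ((polB K A κ).comp (LinearMap.proj i)))).comp T.subtype) ?_
    ((LinearMap.pi (fun i => (polB K κ A).comp (LinearMap.proj i))).comp T'.subtype) ?_
  · refine (injective_iff_map_eq_zero _).2 ?_
    rintro ⟨g, hg⟩ h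
    apply Subtype.ext
    funext i
    have h1 : Polynomial.Bivariate.swap (polB K A κ (g i)) = 0 := congrFun h i
    have h2 : polB K A κ (g i) = 0 := by
      rw [← Polynomial.Bivariate.swap_swap_apply (polB K A κ (g i)), h1, map_zero]
    exact polB_inj h2
  · rintro ⟨g, hg⟩
    choose w hw using fun i => polB_surj (swap_mem (polB_mem A κ (g i)))
    have hg' : Phi f A κ g = 0 := hg
    refine ⟨⟨w, ?_⟩, ?_⟩
    · rw [LinearMap.mem_ker, Phi_apply, hw, hw, hw, ← map_mul, ← map_mul, ← map_mul, ← map_add,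
        ← map_add, ← Phi_apply, hg', map_zero]
    · funext i
      exact hw i

/-- transposing coefficients -/
def swIdx (d₁ d₂ : ℕ) : Idx d₂ d₁ → Idx d₁ d₂ := fun p => (p.1, p.2.2, p.2.1)

lemma ff_swap {d₁ d₂ : ℕ} (c : Idx d₁ d₂ → K) (i : Fin 3) :
    ff (c ∘ swIdx d₁ d₂) i = Polynomial.Bivariate.swap (ff c i) := by
  ext y z
  rw [swap_coeff, ff_coeff, ff_coeff]
  by_cases h : z < d₂ + 1 ∧ y < d₁ + 1
  · rw [dif_pos h, dif_pos h.symm]
    rfl
  · rw [dif_neg h, dif_neg (by tauto)]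

theorem genA' [Infinite K] (d₁ d₂ : ℕ) (h1 : 1 ≤ d₁) (h2 : 1 ≤ d₂) :
    ∃ P : MvPolynomial (Idx d₁ d₂) K, P ≠ 0 ∧ ∀ c, MvPolynomial.eval c P ≠ 0 →
      ∀ A ∈ range (d₁ + 1), ∀ κ, finrank K (LinearMap.ker (Phi (ff c) A κ)) ≤
        3 * (κ * A) - (A + d₁) * (κ + d₂) := by
  obtain ⟨P, hP, h⟩ := genA (K := K) d₂ d₁ h2 h1
  have hinj : Function.Injective (swIdx d₁ d₂) := by
    rintro ⟨i, x, q⟩ ⟨i', x', q'⟩ h
    simp only [swIdx, Prod.mk.injEq] at h
    obtain ⟨h1, h2, h3⟩ := h
    rw [h1, h2, h3]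
  refine ⟨MvPolynomial.rename (swIdx d₁ d₂) P, ?_, ?_⟩
  · intro h0
    exact hP (MvPolynomial.rename_injective _ hinj (by rw [h0, map_zero]))
  · intro c hc A hA κ
    rw [MvPolynomial.eval_rename] at hc
    have := h _ hc A hA κ
    have e : (fun i => Polynomial.Bivariate.swap (ff c i)) = ff (c ∘ swIdx d₁ d₂) := by
      funext i
      exact (ff_swap c i).symm
    refine (swap_ker (ff c) A κ).trans ?_
    rw [e]
    refine this.trans (le_of_eq ?_)
    rw [mul_comm A κ, mul_comm (κ + d₂)]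

end H474FL
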