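import Mathlib
import Pool.Agent.H474R3.FL.Gen2

open Polynomial Module Finset

namespace H474FL

variable {K : Type*} [Field K]

/-- an explicit triple without base points -/
noncomputable def bx (K : Type*) [Field K] (d₁ d₂ : ℕ) (i : Fin 3) : K[X][X] :=
  if i = 0 then C (X ^ d₁) * X ^ d₂ else if i = 1 then 1 else C (X ^ d₁) + X ^ d₂

lemma CXX_mem {d₁ d₂ a b : ℕ} (ha : a ≤ d₁) (hb : b ≤ d₂) :
    (C (X ^ a) * X ^ b : K[X][X]) ∈ BB K (d₁ + 1) (d₂ + 1) := by
  rw [mem_BB']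
  intro y z h
  rw [coeff_C_mul, coeff_X_pow]
  split_ifs with hy
  · rw [mul_one, coeff_X_pow, if_neg (by omega)]
  · simp

lemma bx_mem {d₁ d₂ : ℕ} (i : Fin 3) : bx K d₁ d₂ i ∈ BB K (d₁ + 1) (d₂ + 1) := by
  have h1 := CXX_mem (K := K) (d₁ := d₁) (d₂ := d₂) (le_refl d₁) (le_refl d₂)
  have h2 := CXX_mem (K := K) (d₁ := d₁) (d₂ := d₂) (Nat.zero_le d₁) (Nat.zero_le d₂)
  have h3 := CXX_mem (K := K) (d₁ := d₁) (d₂ := d₂) (le_refl d₁) (Nat.zero_le d₂)
  have h4 := CXX_mem (K := K) (d₁ := d₁) (d₂ := d₂) (Nat.zero_le d₁) (le_refl d₂)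
  unfold bx
  fin_cases i
  · simpa using h1
  · simpa using h2
  · simpa using Submodule.add_mem _ h3 h4

lemma coef_mul (a b : ℕ) (F : K[X][X]) (y x : ℕ) :
    ((C (X ^ a) * X ^ b * F : K[X][X]).coeff y).coeff x =
      if a ≤ x ∧ b ≤ y then (F.coeff (y - b)).coeff (x - a) else 0 := by
  rw [mul_assoc, coeff_C_mul, coeff_X_pow_mul', coeff_X_pow_mul']
  by_cases h1 : a ≤ x
  · by_cases h2 : b ≤ y
    · simp [h1, h2]
    · simp [h1, h2]
  · simp [h1]

/-- array of coefficients of a polynomial in two variables -/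
noncomputable def arr (K : Type*) [Field K] (x0 y0 e₁ e₂ : ℕ) : K[X][X] →ₗ[K] (Fin e₂ → Fin e₁ → K) :=
  LinearMap.pi (fun y => LinearMap.pi (fun x =>
    (Polynomial.lcoeff K (x0 + (x : ℕ))).comp ((Polynomial.lcoeff K[X] (y0 + (y : ℕ))).restrictScalars K)))

lemma arr_apply (x0 y0 e₁ e₂ : ℕ) (F : K[X][X]) (y : Fin e₂) (x : Fin e₁) :
    arr K x0 y0 e₁ e₂ F y x = (F.coeff (y0 + y)).coeff (x0 + x) := rfl

lemma bx_ker {d₁ d₂ A κ : ℕ} (hA : d₁ < A) (hA' : A < 2 * d₁) (hκ : d₂ < κ) (hκ' : κ < 2 * d₂) :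
    finrank K (LinearMap.ker (Phi (bx K d₁ d₂) A κ)) ≤ 3 * ((κ - d₂) * (A - d₁)) := by
  set e₁ := A - d₁ with he1
  set e₂ := κ - d₂ with he2
  rw [← finrank_dom (K := K) e₁ e₂]
  let T := LinearMap.ker (Phi (bx K d₁ d₂) A κ)
  let π : T →ₗ[K] (Fin 3 → Fin e₂ → Fin e₁ → K) :=
    LinearMap.pi (fun i =>
      if i = 0 then (arr K 0 0 e₁ e₂).comp ((polB K A κ).comp ((LinearMap.proj 0).comp T.subtype))
      else if i = 1 then
        (arr K d₁ 0 e₁ e₂).comp ((polB K A κ).comp ((LinearMap.proj 0).comp T.subtype))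
      else (arr K 0 0 e₁ e₂).comp ((polB K A κ).comp ((LinearMap.proj 2).comp T.subtype)))
  refine LinearMap.finrank_le_finrank_of_injective (f := π) ?_
  refine (injective_iff_map_eq_zero _).2 ?_
  rintro ⟨g, hg⟩ hπ
  have hP : arr K 0 0 e₁ e₂ (polB K A κ (g 0)) = 0 := congrFun hπ 0
  have hQ : arr K d₁ 0 e₁ e₂ (polB K A κ (g 0)) = 0 := congrFun hπ 1
  have hR : arr K 0 0 e₁ e₂ (polB K A κ (g 2)) = 0 := congrFun hπ 2
  have hg' : Phi (bx K d₁ d₂) A κ g = 0 := hg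
  rw [Phi_apply] at hg'
  set G0 := polB K A κ (g 0) with hG0
  set G1 := polB K A κ (g 1) with hG1
  set G2 := polB K A κ (g 2) with hG2
  have s0 := mem_BB'.1 (polB_mem A κ (g 0))
  have s1 := mem_BB'.1 (polB_mem A κ (g 1))
  have s2 := mem_BB'.1 (polB_mem A κ (g 2))
  rw [← hG0] at s0
  rw [← hG1] at s1
  rw [← hG2] at s2
  have P : ∀ x y, x < e₁ → y < e₂ → (G0.coeff y).coeff x = 0 := by
    intro x y hx hy
    have := congrFun (congrFun hP ⟨y, hy⟩) ⟨x, hx⟩
    simpa [arr_apply] using this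
  have Q : ∀ x y, x < e₁ → y < e₂ → (G0.coeff y).coeff (d₁ + x) = 0 := by
    intro x y hx hy
    have := congrFun (congrFun hQ ⟨y, hy⟩) ⟨x, hx⟩
    simpa [arr_apply] using this
  have R : ∀ x y, x < e₁ → y < e₂ → (G2.coeff y).coeff x = 0 := by
    intro x y hx hy
    have := congrFun (congrFun hR ⟨y, hy⟩) ⟨x, hx⟩
    simpa [arr_apply] using this
  have E : ∀ x y, (if d₁ ≤ x ∧ d₂ ≤ y then (G0.coeff (y - d₂)).coeff (x - d₁) else 0) +
      (G1.coeff y).coeff x + ((if d₁ ≤ x then (G2.coeff y).coeff (x - d₁) else 0) +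
      (if d₂ ≤ y then (G2.coeff (y - d₂)).coeff x else 0)) = 0 := by
    intro x y
    have h0 : bx K d₁ d₂ 0 * G0 + bx K d₁ d₂ 1 * G1 + bx K d₁ d₂ 2 * G2 =
        C (X ^ d₁) * X ^ d₂ * G0 + C (X ^ 0) * X ^ 0 * G1 +
          (C (X ^ d₁) * X ^ 0 * G2 + C (X ^ 0) * X ^ d₂ * G2) := by
      simp only [bx, if_true, one_ne_zero, if_false, Fin.reduceEq, pow_zero, C_1]
      ring
    rw [h0] at hg'
    have := congrArg (fun P : K[X][X] => (P.coeff y).coeff x) hg'
    simpa only [coeff_add, coef_mul, coeff_zero, Nat.zero_le, and_true, true_and, if_true,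
      Nat.sub_zero] using this
  have Z0 : ∀ x y, (G0.coeff y).coeff x = 0 := by
    intro x y
    rcases Nat.lt_or_ge x A with hx | hx
    swap
    · exact s0 _ _ (Or.inl hx)
    rcases Nat.lt_or_ge y κ with hy | hy
    swap
    · exact s0 _ _ (Or.inr hy)
    have h1 := E (x + d₁) (y + d₂)
    rw [if_pos ⟨by omega, by omega⟩, if_pos (by omega), if_pos (by omega)] at h1
    simp only [Nat.add_sub_cancel] at h1
    rcases Nat.lt_or_ge x e₁ with hx1 | hx1
    · rcases Nat.lt_or_ge y e₂ with hy1 | hy1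
      · exact P x y hx1 hy1
      · rw [s1 _ _ (by omega), s2 (y + d₂) _ (by omega)] at h1
        have h2 := E (x + d₁ + d₁) y
        rw [s1 _ _ (by omega), if_pos (show d₁ ≤ x + d₁ + d₁ by omega)] at h2
        simp only [Nat.add_sub_cancel] at h2
        rcases Nat.lt_or_ge y d₂ with hy2 | hy2
        · rw [if_neg (by omega), if_neg (by omega)] at h2
          simp only [zero_add, add_zero] at h2
          rw [h2] at h1
          simpa using h1
        · rw [if_pos ⟨by omega, hy2⟩, if_pos hy2, s2 _ (x + d₁ + d₁) (by omega)] at h2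
          have h3 := Q x (y - d₂) hx1 (by omega)
          rw [add_comm d₁ x] at h3
          rw [h3] at h2
          simp only [zero_add, add_zero] at h2
          rw [h2] at h1
          simpa using h1
    · rcases Nat.lt_or_ge y e₂ with hy1 | hy1
      · rw [s1 _ _ (by omega), s2 y (x + d₁) (by omega)] at h1
        rcases Nat.lt_or_ge x d₁ with hx2 | hx2
        · have h2 := E x (y + d₂ + d₂)
          rw [s1 _ _ (by omega), if_neg (by omega), if_neg (by omega), if_pos (by omega)] at h2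
          simp only [Nat.add_sub_cancel, zero_add] at h2
          rw [h2] at h1
          simpa using h1
        · have h3 := Q (x - d₁) y (by omega) hy1
          rwa [show d₁ + (x - d₁) = x by omega] at h3
      · rw [s1 _ _ (by omega), s2 y (x + d₁) (by omega), s2 (y + d₂) x (by omega)] at h1
        simpa using h1
  have Z2 : ∀ x y, (G2.coeff y).coeff x = 0 := by
    intro x y
    rcases Nat.lt_or_ge x e₁ with hx1 | hx1
    · rcases Nat.lt_or_ge y e₂ with hy1 | hy1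
      · exact R x y hx1 hy1
      · have h1 := E x (y + d₂)
        rw [s1 _ _ (by omega), if_pos (show d₂ ≤ y + d₂ by omega)] at h1
        simp only [Nat.add_sub_cancel] at h1
        have h2 : (if d₁ ≤ x ∧ d₂ ≤ y + d₂ then (G0.coeff y).coeff (x - d₁) else 0) = 0 := by
          split_ifs
          · exact Z0 _ _
          · rfl
        have h3 : (if d₁ ≤ x then (G2.coeff (y + d₂)).coeff (x - d₁) else 0) = 0 := by
          split_ifs
          · exact s2 _ _ (by omega)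
          · rfl
        rw [h2, h3] at h1
        simpa using h1
    · have h1 := E (x + d₁) y
      rw [s1 _ _ (by omega), if_pos (show d₁ ≤ x + d₁ by omega)] at h1
      simp only [Nat.add_sub_cancel] at h1
      have h2 : (if d₁ ≤ x + d₁ ∧ d₂ ≤ y then (G0.coeff (y - d₂)).coeff x else 0) = 0 := by
        split_ifs
        · exact Z0 _ _
        · rfl
      have h3 : (if d₂ ≤ y then (G2.coeff (y - d₂)).coeff (x + d₁) else 0) = 0 := by
        split_ifs
        · exact s2 _ _ (by omega)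
        · rfl
      rw [h2, h3] at h1
      simpa using h1
  have Z1 : ∀ x y, (G1.coeff y).coeff x = 0 := by
    intro x y
    have h1 := E x y
    simp only [Z0, Z2, ite_self, add_zero, zero_add] at h1
    exact h1
  apply Subtype.ext
  funext i
  fin_cases i
  · exact polB_inj (by ext y x; exact Z0 x y)
  · exact polB_inj (by ext y x; exact Z1 x y)
  · exact polB_inj (by ext y x; exact Z2 x y)

/-- the Koszul map -/
noncomputable def Kz (f : Fin 3 → K[X][X]) (e₁ e₂ : ℕ) :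
    (Fin 3 → Fin e₂ → Fin e₁ → K) →ₗ[K] (Fin 3 → K[X][X]) :=
  LinearMap.pi (fun i =>
    if i = 0 then -(LinearMap.mulLeft K (f 1)).comp ((polB K e₁ e₂).comp (LinearMap.proj 0)) -
      (LinearMap.mulLeft K (f 2)).comp ((polB K e₁ e₂).comp (LinearMap.proj 1))
    else if i = 1 then (LinearMap.mulLeft K (f 0)).comp ((polB K e₁ e₂).comp (LinearMap.proj 0)) -
      (LinearMap.mulLeft K (f 2)).comp ((polB K e₁ e₂).comp (LinearMap.proj 2))
    else (LinearMap.mulLeft K (f 0)).comp ((polB K e₁ e₂).comp (LinearMap.proj 1)) +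
      (LinearMap.mulLeft K (f 1)).comp ((polB K e₁ e₂).comp (LinearMap.proj 2)))

lemma Kz0 (f : Fin 3 → K[X][X]) (e₁ e₂ : ℕ) (v) : Kz f e₁ e₂ v 0 =
    -(f 1 * polB K e₁ e₂ (v 0)) - f 2 * polB K e₁ e₂ (v 1) := rfl

lemma Kz1 (f : Fin 3 → K[X][X]) (e₁ e₂ : ℕ) (v) : Kz f e₁ e₂ v 1 =
    f 0 * polB K e₁ e₂ (v 0) - f 2 * polB K e₁ e₂ (v 2) := rfl

lemma Kz2 (f : Fin 3 → K[X][X]) (e₁ e₂ : ℕ) (v) : Kz f e₁ e₂ v 2 =
    f 0 * polB K e₁ e₂ (v 1) + f 1 * polB K e₁ e₂ (v 2) := rfl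

lemma Kz_lower {d₁ d₂ : ℕ} {f : Fin 3 → K[X][X]} (hf : ∀ i, f i ∈ BB K (d₁ + 1) (d₂ + 1))
    {A κ : ℕ} (hA : d₁ ≤ A) (hκ : d₂ ≤ κ)
    (h : finrank K (LinearMap.ker (Kz f (A - d₁) (κ - d₂))) = 0) :
    3 * ((κ - d₂) * (A - d₁)) ≤ finrank K (LinearMap.ker (Phi f A κ)) := by
  rw [← finrank_dom (K := K) (A - d₁) (κ - d₂)]
  rw [Submodule.finrank_eq_zero] at h
  let T := LinearMap.ker (Phi f A κ)
  refine finrank_le_of_cover (B := T) (Kz f (A - d₁) (κ - d₂)) (LinearMap.ker_eq_bot.1 h)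
    ((LinearMap.pi (fun i => (polB K A κ).comp (LinearMap.proj i))).comp T.subtype) ?_
  intro v
  have hm : ∀ i j, f i * polB K (A - d₁) (κ - d₂) (v j) ∈ BB K A κ := by
    intro i j
    have := mul_mem_BB (hf i) (polB_mem (A - d₁) (κ - d₂) (v j))
    rwa [Nat.sub_add_cancel hA, Nat.sub_add_cancel hκ] at this
  have hK : ∀ i, Kz f (A - d₁) (κ - d₂) v i ∈ BB K A κ := by
    intro i
    fin_cases i
    · exact Submodule.sub_mem _ (Submodule.neg_mem _ (hm 1 0)) (hm 2 1)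
    · exact Submodule.sub_mem _ (hm 0 0) (hm 2 2)
    · exact Submodule.add_mem _ (hm 0 1) (hm 1 2)
  choose w hw using fun i => polB_surj (hK i)
  refine ⟨⟨w, ?_⟩, ?_⟩
  · rw [LinearMap.mem_ker, Phi_apply, hw, hw, hw, Kz0, Kz1, Kz2]
    ring
  · funext i
    exact hw i

/-- triple used for the Koszul relations -/
noncomputable def kx (K : Type*) [Field K] (d₁ d₂ : ℕ) (i : Fin 3) : K[X][X] :=
  if i = 0 then C (X ^ d₁) * X ^ d₂ else if i = 1 then 1 else 0

lemma kx_mem {d₁ d₂ : ℕ} (i : Fin 3) : kx K d₁ d₂ i ∈ BB K (d₁ + 1) (d₂ + 1) := by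
  have h1 := CXX_mem (K := K) (d₁ := d₁) (d₂ := d₂) (le_refl d₁) (le_refl d₂)
  have h2 := CXX_mem (K := K) (d₁ := d₁) (d₂ := d₂) (Nat.zero_le d₁) (Nat.zero_le d₂)
  unfold kx
  fin_cases i
  · simpa using h1
  · simpa using h2
  · simp

lemma kx_ker {d₁ d₂ e₁ e₂ : ℕ} (h1 : e₁ ≤ d₁) :
    finrank K (LinearMap.ker (Kz (kx K d₁ d₂) e₁ e₂)) = 0 := by
  rw [Submodule.finrank_eq_zero, LinearMap.ker_eq_bot']
  intro v hv
  have k0 : kx K d₁ d₂ 0 = C (X ^ d₁) * X ^ d₂ := by simp [kx]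
  have k1 : kx K d₁ d₂ 1 = 1 := by simp [kx]
  have k2 : kx K d₁ d₂ 2 = 0 := by simp [kx]
  have e0 := congrFun hv 0
  have e2 := congrFun hv 2
  rw [Kz0, k1, k2] at e0
  rw [Kz2, k0, k1, one_mul] at e2
  simp only [one_mul, zero_mul, sub_zero, Pi.zero_apply, neg_eq_zero] at e0 e2
  have hv1 : polB K e₁ e₂ (v 1) = 0 := by
    ext y x
    have := congrArg (fun P : K[X][X] => (P.coeff (y + d₂)).coeff (x + d₁)) e2
    simp only [coeff_add, coef_mul, coeff_zero] at this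
    rw [if_pos ⟨by omega, by omega⟩,
      mem_BB'.1 (polB_mem e₁ e₂ (v 2)) (y + d₂) (x + d₁) (by omega)] at this
    simpa using this
  have hv2 : polB K e₁ e₂ (v 2) = 0 := by
    rw [hv1, mul_zero, zero_add] at e2
    exact e2
  funext i
  fin_cases i
  · exact polB_inj e0
  · exact polB_inj hv1
  · exact polB_inj hv2

lemma gen_box {d₁ d₂ A κ : ℕ} (hA : d₁ < A) (hA' : A < 2 * d₁) (hκ : d₂ < κ) (hκ' : κ < 2 * d₂) :
    ∃ P : MvPolynomial (Idx d₁ d₂) K, P ≠ 0 ∧ ∀ c, MvPolynomial.eval c P ≠ 0 →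
      finrank K (LinearMap.ker (Phi (ff c) A κ)) = 3 * ((κ - d₂) * (A - d₁)) := by
  obtain ⟨P, hP, h⟩ := gen_Phi (K := K) (d₁ := d₁) (d₂ := d₂) A κ (3 * ((κ - d₂) * (A - d₁)))
    ⟨bx K d₁ d₂, fun i => bx_mem i, bx_ker hA hA' hκ hκ'⟩
  obtain ⟨c0, hc0⟩ := ff_surj (d₁ := d₁) (d₂ := d₂) (kx K d₁ d₂) (fun i => kx_mem i)
  obtain ⟨P', hP', h'⟩ := gen_of (fun c : Idx d₁ d₂ → K => Kz (ff c) (A - d₁) (κ - d₂))
    (fun v => by
      have : (fun c : Idx d₁ d₂ → K => Kz (ff c) (A - d₁) (κ - d₂) v) =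
        fun c => (((LinearMap.single K (fun _ : Fin 3 => K[X][X]) 0).comp
            (-(LinearMap.mulRight K (polB K (A - d₁) (κ - d₂) (v 0))))) (ff c 1) +
          ((LinearMap.single K (fun _ : Fin 3 => K[X][X]) 0).comp
            (-(LinearMap.mulRight K (polB K (A - d₁) (κ - d₂) (v 1))))) (ff c 2)) +
          (((LinearMap.single K (fun _ : Fin 3 => K[X][X]) 1).comp
            ((LinearMap.mulRight K (polB K (A - d₁) (κ - d₂) (v 0))))) (ff c 0) +
          ((LinearMap.single K (fun _ : Fin 3 => K[X][X]) 1).comp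
            (-(LinearMap.mulRight K (polB K (A - d₁) (κ - d₂) (v 2))))) (ff c 2)) +
          (((LinearMap.single K (fun _ : Fin 3 => K[X][X]) 2).comp
            ((LinearMap.mulRight K (polB K (A - d₁) (κ - d₂) (v 1))))) (ff c 0) +
          ((LinearMap.single K (fun _ : Fin 3 => K[X][X]) 2).comp
            ((LinearMap.mulRight K (polB K (A - d₁) (κ - d₂) (v 2))))) (ff c 1)) := by
        funext c i
        fin_cases i
        · change Kz (ff c) (A - d₁) (κ - d₂) v 0 = _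
          rw [Kz0]
          simp [sub_eq_add_neg]
        · change Kz (ff c) (A - d₁) (κ - d₂) v 1 = _
          rw [Kz1]
          simp [sub_eq_add_neg]
        · change Kz (ff c) (A - d₁) (κ - d₂) v 2 = _
          rw [Kz2]
          simp
      rw [this]
      exact (((((ff_PPm 1).lin _).add ((ff_PPm 2).lin _)).add
        (((ff_PPm 0).lin _).add ((ff_PPm 2).lin _))).add
        (((ff_PPm 0).lin _).add ((ff_PPm 1).lin _)))) c0
  refine ⟨P * P', mul_ne_zero hP hP', fun c hc => ?_⟩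
  rw [map_mul] at hc
  have a1 := h c (left_ne_zero_of_mul hc)
  have a2 := h' c (right_ne_zero_of_mul hc)
  rw [hc0, kx_ker (by omega)] at a2
  have a3 := Kz_lower (fun i => ff_mem c i) (A := A) (κ := κ) hA.le hκ.le (by omega)
  omega

/-- **Rank table** for a generic triple of forms. -/
theorem rank_table [Infinite K] (d₁ d₂ : ℕ) (h1 : 1 ≤ d₁) (h2 : 1 ≤ d₂) :
    ∃ P : MvPolynomial (Idx d₁ d₂) K, P ≠ 0 ∧ ∀ c, MvPolynomial.eval c P ≠ 0 →
      ∀ A κ, (((κ ≤ d₂ ∨ A ≤ d₁) → finrank K (LinearMap.range (Phi (ff c) A κ)) =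
          min (3 * (κ * A)) ((A + d₁) * (κ + d₂))) ∧
        ((d₂ < κ → d₁ < A → (2 * d₁ ≤ A ∨ 2 * d₂ ≤ κ) →
          finrank K (LinearMap.range (Phi (ff c) A κ)) = (A + d₁) * (κ + d₂))) ∧
        (d₂ < κ → d₁ < A → A < 2 * d₁ → κ < 2 * d₂ →
          finrank K (LinearMap.range (Phi (ff c) A κ)) + 3 * ((κ - d₂) * (A - d₁)) =
            3 * (κ * A))) := by
  obtain ⟨P1, hP1, g1⟩ := genA (K := K) d₁ d₂ h1 h2
  obtain ⟨P2, hP2, g2⟩ := genA' (K := K) d₁ d₂ h1 h2
  obtain ⟨P3, hP3, g3⟩ := prod_gen (σ := Idx d₁ d₂) (K := K)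
    ((range (2 * d₁)) ×ˢ (range (2 * d₂)))
    (fun p c => d₁ < p.1 → d₂ < p.2 →
      finrank K (LinearMap.ker (Phi (ff c) p.1 p.2)) = 3 * ((p.2 - d₂) * (p.1 - d₁))) (by
      rintro ⟨A, κ⟩ hp
      simp only [Finset.mem_product, Finset.mem_range] at hp
      by_cases hh : d₁ < A ∧ d₂ < κ
      · obtain ⟨P, hP, h⟩ := gen_box (K := K) hh.1 hp.1 hh.2 hp.2
        exact ⟨P, hP, fun c hc _ _ => h c hc⟩
      · refine ⟨1, one_ne_zero, fun c _ ha hb => absurd ⟨ha, hb⟩ hh⟩)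
  refine ⟨P1 * P2 * P3, mul_ne_zero (mul_ne_zero hP1 hP2) hP3, ?_⟩
  intro c hc A κ
  rw [map_mul, map_mul] at hc
  have c3 := right_ne_zero_of_mul hc
  have c12 := left_ne_zero_of_mul hc
  have c1 := left_ne_zero_of_mul c12
  have c2 := right_ne_zero_of_mul c12
  have hf : ∀ i, ff c i ∈ BB K (d₁ + 1) (d₂ + 1) := fun i => ff_mem c i
  refine ⟨?_, ?_, ?_⟩
  · intro h
    have hb : finrank K (LinearMap.ker (Phi (ff c) A κ)) ≤ 3 * (κ * A) - (A + d₁) * (κ + d₂) := by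
      rcases h with h | h
      · exact g1 c c1 κ (Finset.mem_range.2 (by omega)) A
      · exact g2 c c2 A (Finset.mem_range.2 (by omega)) κ
    have h3 := rank_nullity (ff c) A κ
    have h4 := Submodule.finrank_mono (range_Phi_le hf A κ)
    rw [finrank_BB, mul_comm] at h4
    omega
  · intro hκ hA h
    rcases h with h | h
    · have hb := g1 c c1 d₂ (Finset.mem_range.2 (by omega)) (2 * d₁)
      have hfull := full_of hf hb (le_of_eq (by ring))
      have hp := full_prop h1 h2 hf hfull (A - 2 * d₁) (κ - d₂)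
      rw [show 2 * d₁ + (A - 2 * d₁) = A by omega, show d₂ + (κ - d₂) = κ by omega] at hp
      rw [hp, finrank_BB, mul_comm]
    · have hb := g2 c c2 d₁ (Finset.mem_range.2 (by omega)) (2 * d₂)
      have hfull := full_of hf hb (le_of_eq (by ring))
      have hp := full_prop h1 h2 hf hfull (A - d₁) (κ - 2 * d₂)
      rw [show d₁ + (A - d₁) = A by omega, show 2 * d₂ + (κ - 2 * d₂) = κ by omega] at hp
      rw [hp, finrank_BB, mul_comm]
  · intro hκ hA hA' hκ'
    have := g3 c c3 (A, κ) (by simp [hA', hκ']) hA hκ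
    simp only at this
    have h3 := rank_nullity (ff c) A κ
    omega

end H474FL
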