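import Pool.Agent.H474R3.FL.Gen3
import Pool.Agent.H474R3.FL.Defs

open Polynomial Module Finset

namespace H474FL

variable {K : Type*} [Field K]

noncomputable def deh (K : Type*) [Field K] : MvPolynomial (Fin 4) K →ₐ[K] K[X][X] :=
  MvPolynomial.aeval ![C X, 1, X, 1]

lemma deh_monomial_coeff (m : Fin 4 →₀ ℕ) (r : K) (x y : ℕ) :
    ((deh K (MvPolynomial.monomial m r)).coeff y).coeff x =
      if m 0 = x ∧ m 2 = y then r else 0 := by
  have h : deh K (MvPolynomial.monomial m r) = C (C r * X ^ (m 0)) * X ^ (m 2) := by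
    rw [deh, MvPolynomial.aeval_monomial, Finsupp.prod_fintype _ _ (by simp)]
    simp only [Fin.prod_univ_four, Matrix.cons_val_zero, Matrix.cons_val_one, Matrix.cons_val,
      one_pow, mul_one]
    rw [C_mul, C_pow]
    have : algebraMap K K[X][X] r = C (C r) := rfl
    rw [this, mul_assoc]
  rw [h, coeff_C_mul_X_pow]
  by_cases hy : y = m 2
  · subst hy
    rw [if_pos rfl, coeff_C_mul_X_pow]
    by_cases hx : x = m 0
    · simp [hx]
    · rw [if_neg hx, if_neg (fun h => hx h.1.symm)]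
  · rw [if_neg hy, if_neg (fun h => hy h.2.symm), coeff_zero]

noncomputable def mexp (a₁ a₂ x y : ℕ) : Fin 4 →₀ ℕ :=
  Finsupp.equivFunOnFinite.symm ![x, a₁ - x, y, a₂ - y]

lemma weight_wt (m : Fin 4 →₀ ℕ) : Finsupp.weight wt m = (m 0 + m 1, m 2 + m 3) := by
  rw [Finsupp.weight_apply, Finsupp.sum_fintype _ _ (by simp), Fin.sum_univ_four]
  ext <;> simp [wt]

lemma eq_mexp {a₁ a₂ : ℕ} {m : Fin 4 →₀ ℕ} (h : Finsupp.weight wt m = (a₁, a₂)) {x y : ℕ}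
    (hx : m 0 = x) (hy : m 2 = y) : m = mexp a₁ a₂ x y := by
  rw [weight_wt, Prod.mk.injEq] at h
  ext i
  fin_cases i <;> simp [mexp] <;> omega

lemma weight_mexp {a₁ a₂ x y : ℕ} (hx : x ≤ a₁) (hy : y ≤ a₂) :
    Finsupp.weight wt (mexp a₁ a₂ x y) = (a₁, a₂) := by
  rw [weight_wt]
  simp [mexp]
  omega

lemma mem_Piece {a : ℕ × ℕ} {F : MvPolynomial (Fin 4) K} :
    F ∈ Piece K a ↔ F.IsWeightedHomogeneous wt a := by
  rw [Piece, MvPolynomial.mem_weightedHomogeneousSubmodule]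

lemma deh_coeff {a₁ a₂ : ℕ} {F : MvPolynomial (Fin 4) K} (hF : F ∈ Piece K (a₁, a₂)) (x y : ℕ) :
    ((deh K F).coeff y).coeff x =
      if x ≤ a₁ ∧ y ≤ a₂ then MvPolynomial.coeff (mexp a₁ a₂ x y) F else 0 := by
  rw [mem_Piece] at hF
  conv_lhs => rw [MvPolynomial.as_sum F]
  rw [map_sum, finsetSum_coeff, finsetSum_coeff]
  simp only [deh_monomial_coeff]
  by_cases h : x ≤ a₁ ∧ y ≤ a₂
  · rw [if_pos h, Finset.sum_eq_single (mexp a₁ a₂ x y)]
    · rw [if_pos]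
      simp [mexp]
    · intro m hm hne
      rw [if_neg]
      rintro ⟨h1, h2⟩
      exact hne (eq_mexp (hF (MvPolynomial.mem_support_iff.1 hm)) h1 h2)
    · intro hm
      rw [MvPolynomial.notMem_support_iff.1 hm, ite_self]
  · rw [if_neg h]
    apply Finset.sum_eq_zero
    intro m hm
    rw [if_neg]
    rintro ⟨h1, h2⟩
    have := hF (MvPolynomial.mem_support_iff.1 hm)
    rw [weight_wt, Prod.mk.injEq] at this
    omega

lemma deh_mem {a₁ a₂ : ℕ} {F : MvPolynomial (Fin 4) K} (hF : F ∈ Piece K (a₁, a₂)) :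
    deh K F ∈ BB K (a₁ + 1) (a₂ + 1) := by
  rw [mem_BB']
  intro y z h
  rw [deh_coeff hF, if_neg (by omega)]

lemma deh_inj {a₁ a₂ : ℕ} {F : MvPolynomial (Fin 4) K} (hF : F ∈ Piece K (a₁, a₂))
    (h : deh K F = 0) : F = 0 := by
  ext m
  rw [MvPolynomial.coeff_zero]
  by_contra hne
  have hw := (mem_Piece.1 hF) hne
  have h1 := eq_mexp hw rfl rfl
  have h2 := deh_coeff hF (m 0) (m 2)
  rw [h, coeff_zero, coeff_zero, ← h1, if_pos] at h2
  · exact hne h2.symm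
  · rw [weight_wt, Prod.mk.injEq] at hw
    omega

lemma deh_surj {a₁ a₂ : ℕ} {G : K[X][X]} (hG : G ∈ BB K (a₁ + 1) (a₂ + 1)) :
    ∃ F ∈ Piece K (a₁, a₂), deh K F = G := by
  refine ⟨∑ y ∈ range (a₂ + 1), ∑ x ∈ range (a₁ + 1),
    MvPolynomial.monomial (mexp a₁ a₂ x y) ((G.coeff y).coeff x), ?_, ?_⟩
  · refine Submodule.sum_mem _ fun y hy => Submodule.sum_mem _ fun x hx => ?_
    rw [mem_Piece]
    refine MvPolynomial.isWeightedHomogeneous_monomial _ _ _ (weight_mexp ?_ ?_)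
    · have := Finset.mem_range.1 hx
      omega
    · have := Finset.mem_range.1 hy
      omega
  · ext y x
    simp only [map_sum, finsetSum_coeff, deh_monomial_coeff]
    have e : ∀ y' x', ((mexp a₁ a₂ x' y') 0 = x ∧ (mexp a₁ a₂ x' y') 2 = y) ↔ (x' = x ∧ y' = y) := by
      intro y' x'
      simp [mexp]
    simp only [e]
    by_cases h : x < a₁ + 1 ∧ y < a₂ + 1
    · rw [Finset.sum_eq_single y, Finset.sum_eq_single x]
      · simp
      · intro x' _ hne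
        rw [if_neg (fun h => hne h.1)]
      · intro hx
        exact absurd (Finset.mem_range.2 h.1) hx
      · intro y' _ hne
        refine Finset.sum_eq_zero fun x' _ => ?_
        rw [if_neg (fun h => hne h.2)]
      · intro hy
        exact absurd (Finset.mem_range.2 h.2) hy
    · rw [mem_BB'.1 hG y x (by omega)]
      refine Finset.sum_eq_zero fun y' hy' => Finset.sum_eq_zero fun x' hx' => ?_
      rw [if_neg]
      rintro ⟨h1, h2⟩
      have := Finset.mem_range.1 hy'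
      have := Finset.mem_range.1 hx'
      omega

/-- Dehomogenisation on a graded piece. -/
noncomputable def dehL (K : Type*) [Field K] (a : ℕ × ℕ) : Piece K a →ₗ[K] K[X][X] :=
  (deh K).toLinearMap ∘ₗ (Piece K a).subtype

lemma dehL_apply (a : ℕ × ℕ) (F : Piece K a) : dehL K a F = deh K F := rfl

lemma dehL_inj (a : ℕ × ℕ) : Function.Injective (dehL K a) := by
  obtain ⟨a₁, a₂⟩ := a
  refine (injective_iff_map_eq_zero _).2 fun F hF => ?_
  exact Subtype.ext (deh_inj F.2 hF)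

lemma dehL_range (a₁ a₂ : ℕ) : LinearMap.range (dehL K (a₁, a₂)) = BB K (a₁ + 1) (a₂ + 1) := by
  ext G
  constructor
  · rintro ⟨F, rfl⟩
    exact deh_mem F.2
  · intro hG
    obtain ⟨F, hF, rfl⟩ := deh_surj hG
    exact ⟨⟨F, hF⟩, rfl⟩

lemma finrank_Piece (a₁ a₂ : ℕ) : finrank K (Piece K (a₁, a₂)) = (a₁ + 1) * (a₂ + 1) := by
  rw [← LinearMap.finrank_range_of_inj (dehL_inj (K := K) (a₁, a₂)), dehL_range, finrank_BB,
    mul_comm]

instance (a₁ a₂ : ℕ) : FiniteDimensional K (Piece K (a₁, a₂)) := by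
  apply FiniteDimensional.of_finrank_pos
  rw [finrank_Piece]
  positivity

/-! ### The ideal -/

section ideal

lemma ideal_piece {d a : ℕ × ℕ} {f : Fin 3 → MvPolynomial (Fin 4) K} (hf : ∀ i, f i ∈ Piece K d)
    {F : MvPolynomial (Fin 4) K} (hF : F ∈ Piece K a) (hI : F ∈ Ideal.span (Set.range f)) :
    (d ≤ a → ∃ g : Fin 3 → MvPolynomial (Fin 4) K, (∀ i, g i ∈ Piece K (a - d)) ∧
      F = f 0 * g 0 + f 1 * g 1 + f 2 * g 2) ∧ (¬ d ≤ a → F = 0) := by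
  let _ := MvPolynomial.weightedGradedAlgebra K wt
  have hf' : ∀ i, f i ∈ MvPolynomial.weightedHomogeneousSubmodule K wt d := hf
  obtain ⟨c, hc⟩ := Ideal.mem_span_range_iff_exists_fun.1 hI
  rw [Fin.sum_univ_three] at hc
  have key : F = (DirectSum.decompose (MvPolynomial.weightedHomogeneousSubmodule K wt)
      (f 0 * c 0) a : MvPolynomial (Fin 4) K) +
      (DirectSum.decompose (MvPolynomial.weightedHomogeneousSubmodule K wt)
      (f 1 * c 1) a : MvPolynomial (Fin 4) K) +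
      (DirectSum.decompose (MvPolynomial.weightedHomogeneousSubmodule K wt)
      (f 2 * c 2) a : MvPolynomial (Fin 4) K) := by
    have h1 := DirectSum.decompose_of_mem_same
      (MvPolynomial.weightedHomogeneousSubmodule K wt) hF
    rw [← h1, ← hc, mul_comm (c 0), mul_comm (c 1), mul_comm (c 2)]
    rw [DirectSum.decompose_add, DirectSum.decompose_add]
    rfl
  constructor
  · intro hda
    refine ⟨fun i => (DirectSum.decompose (MvPolynomial.weightedHomogeneousSubmodule K wt)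
      (c i) (a - d) : MvPolynomial (Fin 4) K), fun i => Subtype.coe_prop _, ?_⟩
    rw [key, DirectSum.coe_decompose_mul_of_left_mem_of_le _ (hf' 0) hda,
      DirectSum.coe_decompose_mul_of_left_mem_of_le _ (hf' 1) hda,
      DirectSum.coe_decompose_mul_of_left_mem_of_le _ (hf' 2) hda]
  · intro hda
    rw [key, DirectSum.coe_decompose_mul_of_left_mem_of_not_le _ (hf' 0) hda,
      DirectSum.coe_decompose_mul_of_left_mem_of_not_le _ (hf' 1) hda,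
      DirectSum.coe_decompose_mul_of_left_mem_of_not_le _ (hf' 2) hda]
    simp

lemma mul_mem_Piece {a b : ℕ × ℕ} {f g : MvPolynomial (Fin 4) K} (hf : f ∈ Piece K a)
    (hg : g ∈ Piece K b) : f * g ∈ Piece K (a + b) := by
  rw [mem_Piece] at *
  exact hf.mul hg

/-- The quotient map on a graded piece. -/
noncomputable def quo (f : Fin 3 → MvPolynomial (Fin 4) K) (a : ℕ × ℕ) :
    Piece K a →ₗ[K] (MvPolynomial (Fin 4) K ⧸ Ideal.span (Set.range f)) :=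
  (Ideal.Quotient.mkₐ K (Ideal.span (Set.range f))).toLinearMap.domRestrict (Piece K a)

lemma mem_ker_quo (f : Fin 3 → MvPolynomial (Fin 4) K) (a : ℕ × ℕ) (F : Piece K a) :
    F ∈ LinearMap.ker (quo f a) ↔ (F : MvPolynomial (Fin 4) K) ∈ Ideal.span (Set.range f) := by
  rw [LinearMap.mem_ker, quo, LinearMap.domRestrict_apply, AlgHom.toLinearMap_apply,
    Ideal.Quotient.mkₐ_eq_mk, Ideal.Quotient.eq_zero_iff_mem]

lemma hilb_add (f : Fin 3 → MvPolynomial (Fin 4) K) (a₁ a₂ : ℕ) :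
    hilb f (a₁, a₂) + finrank K ((LinearMap.ker (quo f (a₁, a₂))).map (dehL K (a₁, a₂))) =
      (a₁ + 1) * (a₂ + 1) := by
  rw [← LinearEquiv.finrank_eq (Submodule.equivMapOfInjective (dehL K (a₁, a₂))
    (dehL_inj (a₁, a₂)) (LinearMap.ker (quo f (a₁, a₂)))), ← finrank_Piece (K := K),
    ← LinearMap.finrank_range_add_finrank_ker (quo f (a₁, a₂)), hilb, quo,
    LinearMap.range_domRestrict]

lemma map_ker_of_le {d₁ d₂ a₁ a₂ : ℕ} {f : Fin 3 → MvPolynomial (Fin 4) K}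
    (hf : ∀ i, f i ∈ Piece K (d₁, d₂)) (h1 : d₁ ≤ a₁) (h2 : d₂ ≤ a₂) :
    (LinearMap.ker (quo f (a₁, a₂))).map (dehL K (a₁, a₂)) =
      LinearMap.range (Phi (fun i => deh K (f i)) (a₁ - d₁ + 1) (a₂ - d₂ + 1)) := by
  have hda : ((d₁, d₂) : ℕ × ℕ) ≤ (a₁, a₂) := Prod.mk_le_mk.2 ⟨h1, h2⟩
  ext G
  rw [mem_range_Phi, Submodule.mem_map]
  constructor
  · rintro ⟨F, hF, rfl⟩
    rw [mem_ker_quo] at hF
    obtain ⟨g, hg, hFg⟩ := (ideal_piece hf F.2 hF).1 hda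
    refine ⟨fun i => deh K (g i), fun i => deh_mem (hg i), ?_⟩
    rw [dehL_apply, hFg]
    simp only [map_add, map_mul]
  · rintro ⟨g, hg, rfl⟩
    choose c hc hcg using fun i => deh_surj (hg i)
    have hm : ∀ i, f i * c i ∈ Piece K (a₁, a₂) := by
      intro i
      have := mul_mem_Piece (hf i) (hc i)
      rwa [Prod.mk_add_mk, Nat.add_sub_cancel' h1, Nat.add_sub_cancel' h2] at this
    refine ⟨⟨f 0 * c 0 + f 1 * c 1 + f 2 * c 2, Submodule.add_mem _ (Submodule.add_mem _ (hm 0)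
      (hm 1)) (hm 2)⟩, ?_, ?_⟩
    · rw [mem_ker_quo]
      exact Ideal.add_mem _ (Ideal.add_mem _
        (Ideal.mul_mem_right _ _ (Ideal.subset_span ⟨0, rfl⟩))
        (Ideal.mul_mem_right _ _ (Ideal.subset_span ⟨1, rfl⟩)))
        (Ideal.mul_mem_right _ _ (Ideal.subset_span ⟨2, rfl⟩))
    · rw [dehL_apply]
      simp only [map_add, map_mul, hcg]

lemma map_ker_of_not_le {d₁ d₂ a₁ a₂ : ℕ} {f : Fin 3 → MvPolynomial (Fin 4) K}
    (hf : ∀ i, f i ∈ Piece K (d₁, d₂)) (h : ¬ (d₁ ≤ a₁ ∧ d₂ ≤ a₂)) :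
    (LinearMap.ker (quo f (a₁, a₂))).map (dehL K (a₁, a₂)) = ⊥ := by
  have hda : ¬ ((d₁, d₂) : ℕ × ℕ) ≤ (a₁, a₂) := fun h' => h (Prod.mk_le_mk.1 h')
  rw [eq_bot_iff]
  rintro G ⟨F, hF, rfl⟩
  rw [SetLike.mem_coe, mem_ker_quo] at hF
  rw [Submodule.mem_bot, dehL_apply, (ideal_piece hf F.2 hF).2 hda, map_zero]

end ideal

lemma hilb_of_not_le {d₁ d₂ a₁ a₂ : ℕ} {f : Fin 3 → MvPolynomial (Fin 4) K}
    (hf : ∀ i, f i ∈ Piece K (d₁, d₂)) (h : ¬ (d₁ ≤ a₁ ∧ d₂ ≤ a₂)) :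
    hilb f (a₁, a₂) = (a₁ + 1) * (a₂ + 1) := by
  rw [← hilb_add f a₁ a₂, map_ker_of_not_le hf h, finrank_bot, add_zero]

lemma hilb_of_le {d₁ d₂ a₁ a₂ : ℕ} {f : Fin 3 → MvPolynomial (Fin 4) K}
    (hf : ∀ i, f i ∈ Piece K (d₁, d₂)) (h1 : d₁ ≤ a₁) (h2 : d₂ ≤ a₂) :
    hilb f (a₁, a₂) + finrank K (LinearMap.range
      (Phi (fun i => deh K (f i)) (a₁ - d₁ + 1) (a₂ - d₂ + 1))) = (a₁ + 1) * (a₂ + 1) := by
  rw [← hilb_add f a₁ a₂, map_ker_of_le hf h1 h2]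

/-! ### Arithmetic -/

lemma chi_of_not_le {d₁ d₂ a₁ a₂ : ℕ} (h : ¬ (d₁ ≤ a₁ ∧ d₂ ≤ a₂)) :
    chi (d₁, d₂) (a₁, a₂) = (a₁ + 1) * (a₂ + 1) := by
  simp only [chi, dimR]
  rw [if_pos (by omega), if_neg (by omega), if_neg (by omega), if_neg (by omega)]
  ring

lemma chi_of_lt {d₁ d₂ a₁ a₂ : ℕ} (h1 : d₁ ≤ a₁) (h2 : d₂ ≤ a₂)
    (h : ¬ (2 * d₁ ≤ a₁ ∧ 2 * d₂ ≤ a₂)) :
    chi (d₁, d₂) (a₁, a₂) = (a₁ + 1) * (a₂ + 1) - 3 * ((a₁ - d₁ + 1) * (a₂ - d₂ + 1)) := by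
  simp only [chi, dimR]
  rw [if_pos (by omega), if_pos (by omega), if_neg (by omega), if_neg (by omega)]
  ring

lemma chi_of_box {d₁ d₂ a₁ a₂ : ℕ} (h1 : 2 * d₁ ≤ a₁) (h2 : 2 * d₂ ≤ a₂)
    (h : ¬ (3 * d₁ ≤ a₁ ∧ 3 * d₂ ≤ a₂)) :
    chi (d₁, d₂) (a₁, a₂) = (a₁ + 1) * (a₂ + 1) - 3 * ((a₁ - d₁ + 1) * (a₂ - d₂ + 1)) +
      3 * ((a₁ - 2 * d₁ + 1) * (a₂ - 2 * d₂ + 1)) := by
  simp only [chi, dimR]
  rw [if_pos (by omega), if_pos (by omega), if_pos (by omega), if_neg (by omega)]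
  ring

lemma chi_of_big {d₁ d₂ a₁ a₂ : ℕ} (h1 : 3 * d₁ ≤ a₁) (h2 : 3 * d₂ ≤ a₂) :
    chi (d₁, d₂) (a₁, a₂) = 0 := by
  simp only [chi, dimR]
  rw [if_pos (by omega), if_pos (by omega), if_pos (by omega), if_pos (by omega)]
  ring

/-! ### The main theorem -/

/-- The coordinates of a triple of forms. -/
noncomputable def crd (d₁ d₂ : ℕ) (f : Fin 3 → MvPolynomial (Fin 4) K) : Idx d₁ d₂ → K :=
  fun p => MvPolynomial.coeff (mexp d₁ d₂ p.2.1 p.2.2) (f p.1)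

lemma ff_crd {d₁ d₂ : ℕ} {f : Fin 3 → MvPolynomial (Fin 4) K}
    (hf : ∀ i, f i ∈ Piece K (d₁, d₂)) : (fun i => deh K (f i)) = ff (crd d₁ d₂ f) := by
  funext i
  ext y x
  rw [ff_coeff, deh_coeff (hf i)]
  by_cases h : x ≤ d₁ ∧ y ≤ d₂
  · rw [if_pos h, dif_pos (by omega)]
    rfl
  · rw [if_neg h, dif_neg (by omega)]

lemma exists_of_crd {d₁ d₂ : ℕ} (c : Idx d₁ d₂ → K) :
    ∃ f : Fin 3 → Piece K (d₁, d₂), crd d₁ d₂ (fun i => (f i : MvPolynomial (Fin 4) K)) = c := by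
  choose f hf hc using fun i => deh_surj (ff_mem c i)
  refine ⟨fun i => ⟨f i, hf i⟩, ?_⟩
  funext p
  obtain ⟨i, x, y⟩ := p
  have h := deh_coeff (hf i) (x : ℕ) (y : ℕ)
  rw [hc, ff_coeff, dif_pos ⟨x.2, y.2⟩, if_pos (by have := x.2; have := y.2; omega)] at h
  exact h.symm

theorem main_hilb [Infinite K] (d₁ d₂ : ℕ) (h1 : 1 ≤ d₁) (h2 : 1 ≤ d₂) :
    ∃ P : MvPolynomial (Idx d₁ d₂) K, P ≠ 0 ∧ ∀ f : Fin 3 → MvPolynomial (Fin 4) K,
      (∀ i, f i ∈ Piece K (d₁, d₂)) → MvPolynomial.eval (crd d₁ d₂ f) P ≠ 0 →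
      ∀ a₁ a₂ : ℕ, (hilb f (a₁, a₂) : ℤ) = max (chi (d₁, d₂) (a₁, a₂)) 0 := by
  obtain ⟨P, hP, H⟩ := rank_table (K := K) d₁ d₂ h1 h2
  refine ⟨P, hP, fun f hf hc a₁ a₂ => ?_⟩
  by_cases hle : d₁ ≤ a₁ ∧ d₂ ≤ a₂
  swap
  · rw [hilb_of_not_le hf hle, chi_of_not_le hle, max_eq_left (by positivity)]
    push_cast
    ring
  obtain ⟨hl1, hl2⟩ := hle
  have hh := hilb_of_le hf hl1 hl2
  rw [ff_crd hf] at hh
  obtain ⟨G1, G2, G3⟩ := H _ hc (a₁ - d₁ + 1) (a₂ - d₂ + 1)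
  set r := finrank K (LinearMap.range (Phi (ff (crd d₁ d₂ f)) (a₁ - d₁ + 1) (a₂ - d₂ + 1)))
    with hr
  set x := hilb f (a₁, a₂) with hx
  clear_value r x
  clear hr hx H hc
  obtain ⟨p, rfl⟩ := Nat.exists_eq_add_of_le hl1
  obtain ⟨q, rfl⟩ := Nat.exists_eq_add_of_le hl2
  rw [Nat.add_sub_cancel_left, Nat.add_sub_cancel_left] at G1 G2 G3
  by_cases c1 : q + 1 ≤ d₂ ∨ p + 1 ≤ d₁
  · have g := G1 c1
    rw [chi_of_lt hl1 hl2 (by omega)]
    have e1 : (p + 1 + d₁) * (q + 1 + d₂) = (d₁ + p + 1) * (d₂ + q + 1) := by ring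
    rw [e1] at g
    have e2 : (((d₁ + p : ℕ) : ℤ) + 1) * (((d₂ + q : ℕ) : ℤ) + 1) -
        3 * ((((d₁ + p : ℕ) : ℤ) - d₁ + 1) * (((d₂ + q : ℕ) : ℤ) - d₂ + 1)) =
        (((d₁ + p + 1) * (d₂ + q + 1) : ℕ) : ℤ) - ((3 * ((q + 1) * (p + 1)) : ℕ) : ℤ) := by
      push_cast
      ring
    rw [e2]
    omega
  · have c2 : d₂ < q + 1 := by omega
    have c3 : d₁ < p + 1 := by omega
    by_cases c4 : 2 * d₁ ≤ p + 1 ∨ 2 * d₂ ≤ q + 1
    · have g := G2 c2 c3 c4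
      have e1 : (p + 1 + d₁) * (q + 1 + d₂) = (d₁ + p + 1) * (d₂ + q + 1) := by ring
      rw [e1] at g
      have hx0 : x = 0 := by omega
      rw [hx0]
      by_cases c5 : 3 * d₁ ≤ d₁ + p ∧ 3 * d₂ ≤ d₂ + q
      · rw [chi_of_big c5.1 c5.2]
        simp
      · rw [chi_of_box (by omega) (by omega) c5]
        have e2 : (((d₁ + p : ℕ) : ℤ) + 1) * (((d₂ + q : ℕ) : ℤ) + 1) -
          3 * ((((d₁ + p : ℕ) : ℤ) - d₁ + 1) * (((d₂ + q : ℕ) : ℤ) - d₂ + 1)) +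
          3 * ((((d₁ + p : ℕ) : ℤ) - 2 * d₁ + 1) * (((d₂ + q : ℕ) : ℤ) - 2 * d₂ + 1)) =
          ((p : ℤ) + 1 - 2 * d₁) * ((q : ℤ) + 1 - 2 * d₂) := by
          push_cast
          ring
        rw [e2]
        symm
        rw [Nat.cast_zero]
        apply max_eq_right
        rcases c4 with c4 | c4
        · rcases Nat.lt_or_ge (d₁ + p) (3 * d₁) with c6 | c6
          · have : (p : ℤ) + 1 - 2 * d₁ = 0 := by omega
            rw [this, zero_mul]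
          · apply mul_nonpos_of_nonneg_of_nonpos
            · omega
            · omega
        · rcases Nat.lt_or_ge (d₂ + q) (3 * d₂) with c6 | c6
          · have : (q : ℤ) + 1 - 2 * d₂ = 0 := by omega
            rw [this, mul_zero]
          · apply mul_nonpos_of_nonpos_of_nonneg
            · omega
            · omega
    · have g := G3 c2 c3 (by omega) (by omega)
      obtain ⟨p', rfl⟩ := Nat.exists_eq_add_of_le (show d₁ ≤ p by omega)
      obtain ⟨q', rfl⟩ := Nat.exists_eq_add_of_le (show d₂ ≤ q by omega)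
      rw [chi_of_box (by omega) (by omega) (by omega)]
      have s1 : d₂ + q' + 1 - d₂ = q' + 1 := by omega
      have s2 : d₁ + p' + 1 - d₁ = p' + 1 := by omega
      rw [s1, s2] at g
      have s3 : d₂ + (d₂ + q') - d₂ = d₂ + q' := by omega
      have s4 : d₁ + (d₁ + p') - d₁ = d₁ + p' := by omega
      have g' : (r : ℤ) + 3 * (((q' : ℤ) + 1) * ((p' : ℤ) + 1)) =
          3 * (((d₂ : ℤ) + q' + 1) * ((d₁ : ℤ) + p' + 1)) := by exact_mod_cast g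
      have hh' : (x : ℤ) + r = ((d₁ : ℤ) + (d₁ + p') + 1) * ((d₂ : ℤ) + (d₂ + q') + 1) := by
        exact_mod_cast hh
      have e2 : (((d₁ + (d₁ + p') : ℕ) : ℤ) + 1) * (((d₂ + (d₂ + q') : ℕ) : ℤ) + 1) -
          3 * ((((d₁ + (d₁ + p') : ℕ) : ℤ) - d₁ + 1) * (((d₂ + (d₂ + q') : ℕ) : ℤ) - d₂ + 1)) +
          3 * ((((d₁ + (d₁ + p') : ℕ) : ℤ) - 2 * d₁ + 1) *
            (((d₂ + (d₂ + q') : ℕ) : ℤ) - 2 * d₂ + 1)) = x := by
        push_cast
        linear_combination (-1 : ℤ) * hh' + g'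
      rw [e2]
      symm
      exact max_eq_left (Int.natCast_nonneg x)

end H474FL
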